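import Pool.Agent.Hhelper71.Dbl.Code

/-!
# The codes of Bohman and Holzman
-/

namespace Pool.Agent.Hhelper71.Dbl

/-- Distinguishable letters. -/
def Adj (k : ℕ) (x y : ℤ) : Prop := |x - y| = 1 ∨ |x - y| = 2 * k

theorem Adj.symm {k : ℕ} {x y : ℤ} (h : Adj k x y) : Adj k y x := by
  unfold Adj at h ⊢
  rwa [abs_sub_comm y x]

/-- Shift of the letters away from zero. -/
def sh (x : ℤ) : ℤ := if 0 < x then x + 1 else x - 1

theorem abs_sh {x : ℤ} (hx : 1 ≤ |x|) : |sh x| = |x| + 1 := by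
  unfold sh
  rcases lt_trichotomy x 0 with h | h | h
  · rw [if_neg (by linarith), abs_of_neg h, abs_of_neg (by linarith)]
    ring
  · rw [h, abs_zero] at hx
    omega
  · rw [if_pos h, abs_of_pos h, abs_of_pos (by linarith)]

theorem adj_sh {k : ℕ} {x y : ℤ} (h : Adj k x y) (hx : 1 ≤ |x|) (hy : 1 ≤ |y|) (hxk : |x| ≤ k)
    (hyk : |y| ≤ k) : Adj (k + 1) (sh x) (sh y) := by
  have hx0 : x ≠ 0 := fun h => by rw [h, abs_zero] at hx; omega
  have hy0 : y ≠ 0 := fun h => by rw [h, abs_zero] at hy; omega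
  unfold Adj sh at *
  push_cast
  rcases lt_or_gt_of_ne hx0 with h1 | h1 <;> rcases lt_or_gt_of_ne hy0 with h2 | h2
  · rw [abs_of_neg h1] at hx hxk
    rw [abs_of_neg h2] at hy hyk
    rw [if_neg (by linarith), if_neg (by linarith)]
    rcases abs_cases (x - y) with h3 | h3 <;> rcases abs_cases (x - 1 - (y - 1)) with h4 | h4 <;>
      omega
  · rw [abs_of_neg h1] at hx hxk
    rw [abs_of_pos h2] at hy hyk
    rw [if_neg (by linarith), if_pos h2]
    rcases abs_cases (x - y) with h3 | h3 <;> rcases abs_cases (x - 1 - (y + 1)) with h4 | h4 <;>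
      omega
  · rw [abs_of_pos h1] at hx hxk
    rw [abs_of_neg h2] at hy hyk
    rw [if_pos h1, if_neg (by linarith)]
    rcases abs_cases (x - y) with h3 | h3 <;> rcases abs_cases (x + 1 - (y - 1)) with h4 | h4 <;>
      omega
  · rw [abs_of_pos h1] at hx hxk
    rw [abs_of_pos h2] at hy hyk
    rw [if_pos h1, if_pos h2]
    rcases abs_cases (x - y) with h3 | h3 <;> rcases abs_cases (x + 1 - (y + 1)) with h4 | h4 <;>
      omega

theorem adj_self_sh {k : ℕ} {x : ℤ} (hx : |x| = 1) : Adj k x (sh x) := by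
  unfold Adj sh
  left
  rcases (abs_eq (by norm_num)).1 hx with rfl | rfl <;> norm_num

/-- The inductive construction. -/
theorem bh (k : ℕ) : ∃ (ι I : Type) (_ : Fintype ι) (_ : DecidableEq ι) (_ : Fintype I)
    (w : I → ι → ℤ) (pos : I → ι) (cl : I → Bool),
    Fintype.card ι = 2 ^ k ∧ Fintype.card I = 2 ^ (2 ^ k) ∧ (∀ u, |w u (pos u)| = 1) ∧
    (∀ u i, i ≠ pos u → 2 ≤ |w u i|) ∧ (∀ u i, |w u i| ≤ ((k + 1 : ℕ) : ℤ)) ∧
    (∀ u u', u ≠ u' → ∃ i, Adj (k + 1) (w u i) (w u' i)) ∧
    (∀ u u', u ≠ u' → cl u = cl u' → ∃ i, 2 ≤ |w u i| ∧ 2 ≤ |w u' i| ∧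
      Adj (k + 1) (w u i) (w u' i)) := by
  induction k with
  | zero =>
    refine ⟨Unit, Bool, inferInstance, inferInstance, inferInstance,
      fun u _ => if u then 1 else -1, fun _ => (), fun u => u, by simp, by simp, ?_, ?_, ?_, ?_, ?_⟩
    · intro u
      cases u <;> simp
    · intro u i hi
      exact (hi rfl).elim
    · intro u i
      cases u <;> simp
    · intro u u' h
      refine ⟨(), Or.inr ?_⟩
      cases u <;> cases u' <;> simp_all
    · intro u u' h h'
      exact (h h').elim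
  | succ k ih =>
    obtain ⟨ι, I, _, _, _, w, pos, cl, hι, hI, h1, h2, h3, h4, h5⟩ := ih
    have h0 : ∀ u i, 1 ≤ |w u i| := by
      intro u i
      by_cases h : i = pos u
      · rw [h, h1]
      · linarith [h2 u i h]
    have hsh : ∀ u u' i, Adj (k + 1) (w u i) (w u' i) →
        Adj (k + 1 + 1) (sh (w u i)) (sh (w u' i)) := fun u u' i h =>
      adj_sh h (h0 _ _) (h0 _ _) (h3 _ _) (h3 _ _)
    have hsh2 : ∀ u i, 2 ≤ |sh (w u i)| := fun u i => by
      rw [abs_sh (h0 u i)]
      linarith [h0 u i]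
    have hpos : ∀ u i, 2 ≤ |w u i| → i ≠ pos u := by
      intro u i h hi
      rw [hi, h1] at h
      omega
    set w' : I × I → ι ⊕ ι → ℤ := fun x c => Sum.elim
      (fun i => if cl x.1 = cl x.2 ∧ i = pos x.1 then w x.1 i else sh (w x.1 i))
      (fun i => if cl x.1 ≠ cl x.2 ∧ i = pos x.2 then w x.2 i else sh (w x.2 i)) c with hw'
    have hl1 : ∀ u v, cl u = cl v → w' (u, v) (Sum.inl (pos u)) = w u (pos u) := by
      intro u v h
      simp [hw', h]
    have hl2 : ∀ u v i, i ≠ pos u → w' (u, v) (Sum.inl i) = sh (w u i) := by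
      intro u v i h
      simp [hw', h]
    have hl3 : ∀ u v i, cl u ≠ cl v → w' (u, v) (Sum.inl i) = sh (w u i) := by
      intro u v i h
      simp [hw', h]
    have hr1 : ∀ u v, cl u ≠ cl v → w' (u, v) (Sum.inr (pos v)) = w v (pos v) := by
      intro u v h
      simp [hw', h]
    have hr2 : ∀ u v i, i ≠ pos v → w' (u, v) (Sum.inr i) = sh (w v i) := by
      intro u v i h
      simp [hw', h]
    have hr3 : ∀ u v i, cl u = cl v → w' (u, v) (Sum.inr i) = sh (w v i) := by
      intro u v i h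
      simp [hw', h]
    -- distinct words of the same class
    have hQ : ∀ x x' : I × I, x ≠ x' → (decide (cl x.1 = cl x.2) = decide (cl x'.1 = cl x'.2)) →
        ∃ c, 2 ≤ |w' x c| ∧ 2 ≤ |w' x' c| ∧ Adj (k + 1 + 1) (w' x c) (w' x' c) := by
      rintro ⟨u, v⟩ ⟨u', v'⟩ hne hcl
      dsimp only at hcl
      by_cases hc : cl u = cl v
      · have hc' : cl u' = cl v' := by simpa [hc] using hcl
        by_cases hv : v = v'
        · have hu : u ≠ u' := fun h => hne (by rw [h, hv])
          obtain ⟨i, h6, h7, h8⟩ := h5 u u' hu (by rw [hc, hc', hv])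
          refine ⟨Sum.inl i, ?_⟩
          rw [hl2 u v i (hpos u i h6), hl2 u' v' i (hpos u' i h7)]
          exact ⟨hsh2 _ _, hsh2 _ _, hsh _ _ _ h8⟩
        · obtain ⟨i, h8⟩ := h4 v v' hv
          refine ⟨Sum.inr i, ?_⟩
          rw [hr3 u v i hc, hr3 u' v' i hc']
          exact ⟨hsh2 _ _, hsh2 _ _, hsh _ _ _ h8⟩
      · have hc' : cl u' ≠ cl v' := by
          intro h
          simp [hc, h] at hcl
        by_cases hu : u = u'
        · have hv : v ≠ v' := fun h => hne (by rw [h, hu])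
          have hvv : cl v = cl v' := by
            rw [← hu] at hc'
            revert hc hc'
            cases cl u <;> cases cl v <;> cases cl v' <;> simp
          obtain ⟨i, h6, h7, h8⟩ := h5 v v' hv hvv
          refine ⟨Sum.inr i, ?_⟩
          rw [hr2 u v i (hpos v i h6), hr2 u' v' i (hpos v' i h7)]
          exact ⟨hsh2 _ _, hsh2 _ _, hsh _ _ _ h8⟩
        · obtain ⟨i, h8⟩ := h4 u u' hu
          refine ⟨Sum.inl i, ?_⟩
          rw [hl3 u v i hc, hl3 u' v' i hc']
          exact ⟨hsh2 _ _, hsh2 _ _, hsh _ _ _ h8⟩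
    -- words of different classes
    have hX : ∀ u v u' v' : I, cl u = cl v → cl u' ≠ cl v' →
        ∃ c, Adj (k + 1 + 1) (w' (u, v) c) (w' (u', v') c) := by
      intro u v u' v' hc hc'
      by_cases hcu : cl u' = cl u
      · by_cases hu : u' = u
        · refine ⟨Sum.inl (pos u), ?_⟩
          rw [hl1 u v hc, hl3 u' v' _ hc', hu]
          exact adj_self_sh (h1 u)
        · obtain ⟨i, h6, h7, h8⟩ := h5 u u' (fun h => hu h.symm) hcu.symm
          refine ⟨Sum.inl i, ?_⟩
          rw [hl2 u v i (hpos u i h6), hl3 u' v' _ hc']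
          exact hsh _ _ _ h8
      · have hcv : cl v' = cl v := by
          revert hc hc' hcu
          cases cl u <;> cases cl v <;> cases cl v' <;> cases cl u' <;> simp
        by_cases hv : v' = v
        · refine ⟨Sum.inr (pos v), ?_⟩
          rw [hr3 u v _ hc]
          have h6 := hr1 u' v' hc'
          rw [hv] at h6 ⊢
          rw [h6]
          exact (adj_self_sh (h1 v)).symm
        · obtain ⟨i, h6, h7, h8⟩ := h5 v v' (fun h => hv h.symm) hcv.symm
          refine ⟨Sum.inr i, ?_⟩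
          rw [hr3 u v i hc, hr2 u' v' i (hpos v' i h7)]
          exact hsh _ _ _ h8
    refine ⟨ι ⊕ ι, I × I, inferInstance, inferInstance, inferInstance, w',
      fun x => if cl x.1 = cl x.2 then Sum.inl (pos x.1) else Sum.inr (pos x.2),
      fun x => decide (cl x.1 = cl x.2), ?_, ?_, ?_, ?_, ?_, ?_, hQ⟩
    · rw [Fintype.card_sum, hι, pow_succ]
      ring
    · rw [Fintype.card_prod, hI, ← pow_add, pow_succ]
      congr 1
      ring
    · rintro ⟨u, v⟩
      dsimp only
      by_cases hc : cl u = cl v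
      · rw [if_pos hc, hl1 u v hc, h1]
      · rw [if_neg hc, hr1 u v hc, h1]
    · rintro ⟨u, v⟩ c hc
      dsimp only at hc
      by_cases hcl : cl u = cl v
      · rw [if_pos hcl] at hc
        rcases c with i | i
        · rw [hl2 u v i (fun h => hc (by rw [h]))]
          exact hsh2 _ _
        · rw [hr3 u v i hcl]
          exact hsh2 _ _
      · rw [if_neg hcl] at hc
        rcases c with i | i
        · rw [hl3 u v i hcl]
          exact hsh2 _ _
        · rw [hr2 u v i (fun h => hc (by rw [h]))]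
          exact hsh2 _ _
    · rintro ⟨u, v⟩ c
      have hb1 : ∀ y i, |w y i| ≤ ((k + 1 + 1 : ℕ) : ℤ) := fun y i => by
        have := h3 y i
        push_cast at this ⊢
        linarith
      have hb2 : ∀ y i, |sh (w y i)| ≤ ((k + 1 + 1 : ℕ) : ℤ) := fun y i => by
        have := h3 y i
        rw [abs_sh (h0 y i)]
        push_cast at this ⊢
        linarith
      rcases c with i | i
      · simp only [hw', Sum.elim_inl]
        split_ifs
        · exact hb1 _ _
        · exact hb2 _ _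
      · simp only [hw', Sum.elim_inr]
        split_ifs
        · exact hb1 _ _
        · exact hb2 _ _
    · rintro ⟨u, v⟩ ⟨u', v'⟩ hne
      by_cases hc : cl u = cl v <;> by_cases hc' : cl u' = cl v'
      · obtain ⟨c, -, -, h⟩ := hQ _ _ hne (by simp [hc, hc'])
        exact ⟨c, h⟩
      · exact hX u v u' v' hc hc'
      · obtain ⟨c, h⟩ := hX u' v' u v hc' hc
        exact ⟨c, h.symm⟩
      · obtain ⟨c, -, -, h⟩ := hQ _ _ hne (by simp [hc, hc'])
        exact ⟨c, h⟩

theorem far_letter {k : ℕ} (hk : 0 < k) {x y : ℤ} (h : Adj k x y) :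
    k ≤ (((k * x : ℤ) : ZMod (2 * k + 1)) - ((k * y : ℤ) : ZMod (2 * k + 1))).val ∧
      k ≤ (((k * y : ℤ) : ZMod (2 * k + 1)) - ((k * x : ℤ) : ZMod (2 * k + 1))).val := by
  have hv : ((k : ℕ) : ZMod (2 * k + 1)).val = k := by
    rw [ZMod.val_natCast, Nat.mod_eq_of_lt (by omega)]
  have hne : ((k : ℕ) : ZMod (2 * k + 1)) ≠ 0 := by
    intro h
    rw [h, ZMod.val_zero] at hv
    omega
  have hv2 : (-((k : ℕ) : ZMod (2 * k + 1))).val = k + 1 := by
    rw [ZMod.neg_val, if_neg hne, hv]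
    omega
  have h0 : (2 * k + 1 : ZMod (2 * k + 1)) = 0 := by
    have := ZMod.natCast_self (2 * k + 1)
    push_cast at this
    exact this
  have key : ∀ d : ℤ, (|d| = 1 ∨ |d| = 2 * k) → ((k * d : ℤ) : ZMod (2 * k + 1)) = k ∨
      ((k * d : ℤ) : ZMod (2 * k + 1)) = -k := by
    intro d hd
    rcases hd with hd | hd
    · rcases (abs_eq (by norm_num)).1 hd with rfl | rfl
      · left; push_cast; ring
      · right; push_cast; ring
    · rcases (abs_eq (by positivity)).1 hd with rfl | rfl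
      · right
        push_cast
        linear_combination (k : ZMod (2 * k + 1)) * h0
      · left
        push_cast
        linear_combination -(k : ZMod (2 * k + 1)) * h0
  have e1 : ((k * x : ℤ) : ZMod (2 * k + 1)) - ((k * y : ℤ) : ZMod (2 * k + 1)) =
      ((k * (x - y) : ℤ) : ZMod (2 * k + 1)) := by
    push_cast
    ring
  have e2 : ((k * y : ℤ) : ZMod (2 * k + 1)) - ((k * x : ℤ) : ZMod (2 * k + 1)) =
      -((k * (x - y) : ℤ) : ZMod (2 * k + 1)) := by
    push_cast
    ring
  rw [e1, e2]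
  rcases key (x - y) h with h6 | h6
  · rw [h6, hv, hv2]
    omega
  · rw [h6, neg_neg, hv, hv2]
    omega

/-- The code of Bohman and Holzman, `2 ^ n + 1` words in dimension `n = 2 ^ k`. -/
theorem bh_code (k : ℕ) : ∃ S : Finset (Fin (2 ^ k) → ZMod (2 * (k + 1) + 1)),
    S.card = 2 ^ (2 ^ k) + 1 ∧ Sep (k + 1) S := by
  classical
  obtain ⟨ι, I, _, _, _, w, pos, cl, hι, hI, h1, h2, h3, h4, h5⟩ := bh k
  set φ : Option I → (ι → ZMod (2 * (k + 1) + 1)) := fun u i =>
    ((((k + 1 : ℕ) : ℤ) * (u.elim 0 (fun x => w x i)) : ℤ) : ZMod (2 * (k + 1) + 1)) with hφ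
  have hsep : ∀ u v : Option I, u ≠ v → ∃ i,
      k + 1 ≤ (φ u i - φ v i).val ∧ k + 1 ≤ (φ v i - φ u i).val := by
    have h0 : ∀ u : I, ∃ i, Adj (k + 1) (w u i) 0 := fun u =>
      ⟨pos u, Or.inl (by rw [sub_zero, h1])⟩
    rintro (_ | u) (_ | v) huv
    · exact (huv rfl).elim
    · obtain ⟨i, hi⟩ := h0 v
      exact ⟨i, far_letter (Nat.succ_pos k) hi.symm⟩
    · obtain ⟨i, hi⟩ := h0 u
      exact ⟨i, far_letter (Nat.succ_pos k) hi⟩
    · obtain ⟨i, hi⟩ := h4 u v (fun h => huv (by rw [h]))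
      exact ⟨i, far_letter (Nat.succ_pos k) hi⟩
  have hinj : Function.Injective φ := by
    intro u v h
    by_contra hne
    obtain ⟨i, h6, -⟩ := hsep u v hne
    rw [h, sub_self, ZMod.val_zero] at h6
    omega
  have hcard : (Finset.univ.image φ).card = 2 ^ (2 ^ k) + 1 := by
    rw [Finset.card_image_of_injective _ hinj, Finset.card_univ, Fintype.card_option, hI]
  obtain ⟨S', hS1, hS2⟩ := sep_restrict (m := 2 ^ k) (Nat.succ_pos k) (S := Finset.univ.image φ) ∅
    (by rw [Finset.compl_empty, Finset.card_univ, hι]) (by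
      intro x hx y hy hxy
      obtain ⟨u, -, rfl⟩ := Finset.mem_image.1 hx
      obtain ⟨v, -, rfl⟩ := Finset.mem_image.1 hy
      obtain ⟨i, hi⟩ := hsep u v (fun h => hxy (by rw [h]))
      exact ⟨i, Finset.notMem_empty i, hi⟩)
  exact ⟨S', by rw [hS1, hcard], hS2⟩

end Pool.Agent.Hhelper71.Dbl
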