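import Mathlib

/-!
# Codes in fraction graphs: change of the representation, seventeen words in dimension four
-/

namespace Pool.Agent.Hhelper71.Dbl

/-- Codes with difference at least `b`. -/
def Sep {a : ℕ} {ι : Type*} (b : ℕ) (S : Finset (ι → ZMod a)) : Prop :=
  ∀ x ∈ S, ∀ y ∈ S, x ≠ y → ∃ i, b ≤ (x i - y i).val ∧ b ≤ (y i - x i).val

theorem far_map {a b p q : ℕ} (hb : 0 < b) [NeZero a] [NeZero p] (hpq : a * q ≤ b * p)
    {u v : ZMod a} (h1 : b ≤ (u - v).val) (h2 : b ≤ (v - u).val) :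
    q ≤ (((u.val * p / a : ℕ) : ZMod p) - ((v.val * p / a : ℕ) : ZMod p)).val ∧
      q ≤ (((v.val * p / a : ℕ) : ZMod p) - ((u.val * p / a : ℕ) : ZMod p)).val := by
  have ha : 0 < a := NeZero.pos a
  have hp : 0 < p := NeZero.pos p
  wlog huv : v.val ≤ u.val generalizing u v
  · exact (this h2 h1 (by omega)).symm
  have hd1 : (u - v).val = u.val - v.val := ZMod.val_sub huv
  have hne : u - v ≠ 0 := by
    intro h
    rw [h, ZMod.val_zero] at h1
    omega
  have hd2 : (v - u).val = a - (u.val - v.val) := by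
    rw [← neg_sub, ZMod.neg_val, if_neg hne, hd1]
  rw [hd1] at h1
  rw [hd2] at h2
  have hua : u.val < a := ZMod.val_lt u
  have hva : v.val < a := ZMod.val_lt v
  have hlt : ∀ w : ℕ, w < a → w * p / a < p := by
    intro w hw
    rw [Nat.div_lt_iff_lt_mul ha, mul_comm p a]
    exact Nat.mul_lt_mul_of_pos_right hw hp
  have hval : ∀ w : ℕ, w < a → (((w * p / a : ℕ) : ZMod p)).val = w * p / a := by
    intro w hw
    rw [ZMod.val_natCast, Nat.mod_eq_of_lt (hlt w hw)]
  have hge : v.val * p / a + q ≤ u.val * p / a := by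
    rw [Nat.le_div_iff_mul_le ha, add_mul]
    have h3 : v.val * p / a * a ≤ v.val * p := Nat.div_mul_le_self _ _
    have h4 : (v.val + b) * p ≤ u.val * p := Nat.mul_le_mul_right _ (by omega)
    nlinarith
  have hle : u.val * p / a + q ≤ v.val * p / a + p := by
    have h3 : u.val * p / a * a ≤ u.val * p := Nat.div_mul_le_self _ _
    have h4 : (u.val + b) * p ≤ (v.val + a) * p := Nat.mul_le_mul_right _ (by omega)
    have h5 : v.val * p < a * (v.val * p / a + 1) := Nat.lt_mul_div_succ _ ha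
    by_contra hcon
    push Not at hcon
    have h6 : (v.val * p / a + p + 1) * a ≤ (u.val * p / a + q) * a :=
      Nat.mul_le_mul_right _ hcon
    nlinarith
  have hUV : (((u.val * p / a : ℕ) : ZMod p) - ((v.val * p / a : ℕ) : ZMod p)).val =
      u.val * p / a - v.val * p / a := by
    rw [ZMod.val_sub (by rw [hval _ hua, hval _ hva]; omega), hval _ hua, hval _ hva]
  rcases Nat.eq_zero_or_pos q with hq | hq
  · rw [hq]
    exact ⟨Nat.zero_le _, Nat.zero_le _⟩
  have hne' : ((u.val * p / a : ℕ) : ZMod p) - ((v.val * p / a : ℕ) : ZMod p) ≠ 0 := by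
    intro h
    rw [h, ZMod.val_zero] at hUV
    omega
  refine ⟨by rw [hUV]; omega, ?_⟩
  rw [← neg_sub, ZMod.neg_val, if_neg hne', hUV]
  omega

theorem sep_map {a b p q : ℕ} {ι : Type*} (hb : 0 < b) (hq : 0 < q) [NeZero a] [NeZero p]
    (hpq : a * q ≤ b * p) {S : Finset (ι → ZMod a)} (hS : Sep b S) :
    ∃ S' : Finset (ι → ZMod p), S'.card = S.card ∧ Sep q S' := by
  classical
  set φ : (ι → ZMod a) → (ι → ZMod p) := fun x i => (((x i).val * p / a : ℕ) : ZMod p) with hφ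
  have hinj : Set.InjOn φ S := by
    intro x hx y hy hxy
    by_contra hne
    obtain ⟨i, h1, h2⟩ := hS x hx y hy hne
    obtain ⟨h3, -⟩ := far_map hb hpq h1 h2
    have h4 := congrFun hxy i
    rw [hφ] at h4
    dsimp only at h4
    rw [h4, sub_self, ZMod.val_zero] at h3
    omega
  refine ⟨S.image φ, Finset.card_image_of_injOn hinj, ?_⟩
  intro x' hx' y' hy' hne
  obtain ⟨x, hx, rfl⟩ := Finset.mem_image.1 hx'
  obtain ⟨y, hy, rfl⟩ := Finset.mem_image.1 hy'
  obtain ⟨i, h1, h2⟩ := hS x hx y hy (fun h => hne (by rw [h]))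
  exact ⟨i, far_map hb hpq h1 h2⟩

/-- A restriction to the coordinates outside `K`. -/
theorem sep_restrict {a b m : ℕ} {ι : Type*} [Fintype ι] [DecidableEq ι] (hb : 0 < b)
    {S : Finset (ι → ZMod a)} (K : Finset ι) (hm : Kᶜ.card = m)
    (hS : ∀ x ∈ S, ∀ y ∈ S, x ≠ y → ∃ i ∉ K, b ≤ (x i - y i).val ∧ b ≤ (y i - x i).val) :
    ∃ S' : Finset (Fin m → ZMod a), S'.card = S.card ∧ Sep b S' := by
  classical
  set e := (Kᶜ).equivFinOfCardEq hm with he
  set φ : (ι → ZMod a) → (Fin m → ZMod a) := fun x k => x (e.symm k) with hφ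
  have hφe : ∀ x : ι → ZMod a, ∀ i (hi : i ∉ K), φ x (e ⟨i, Finset.mem_compl.2 hi⟩) = x i := by
    intro x i hi
    rw [hφ]
    dsimp only
    rw [Equiv.symm_apply_apply]
  have hinj : Set.InjOn φ S := by
    intro x hx y hy hxy
    by_contra hne
    obtain ⟨i, hi, h1, h2⟩ := hS x hx y hy hne
    have h4 := congrFun hxy (e ⟨i, Finset.mem_compl.2 hi⟩)
    rw [hφe x i hi, hφe y i hi] at h4
    rw [h4, sub_self, ZMod.val_zero] at h1
    omega
  refine ⟨S.image φ, Finset.card_image_of_injOn hinj, ?_⟩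
  intro x' hx' y' hy' hne
  obtain ⟨x, hx, rfl⟩ := Finset.mem_image.1 hx'
  obtain ⟨y, hy, rfl⟩ := Finset.mem_image.1 hy'
  obtain ⟨i, hi, h1, h2⟩ := hS x hx y hy (fun h => hne (by rw [h]))
  exact ⟨e ⟨i, Finset.mem_compl.2 hi⟩, by rw [hφe x i hi, hφe y i hi]; exact ⟨h1, h2⟩⟩

/-- The odd function from `ZMod 17` to `ZMod 7` of the code of seventeen words. -/
def f17 : Fin 17 → ZMod 7 := ![0, 0, 1, 1, 2, 2, 3, 3, 3, 4, 4, 4, 5, 5, 6, 6, 0]

/-- The seventeen words. -/
def w17 (y : Fin 17) : Fin 4 → ZMod 7 :=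
  ![f17 y, f17 (2 * y), f17 (4 * y), f17 (8 * y)]

theorem w17_sep : ∀ y z : Fin 17, y ≠ z →
    ∃ i, 3 ≤ (w17 y i - w17 z i).val ∧ 3 ≤ (w17 z i - w17 y i).val := by
  decide +kernel

theorem seventeen : ∃ S : Finset (Fin 4 → ZMod 7), S.card = 17 ∧ Sep 3 S := by
  classical
  have hinj : Function.Injective w17 := by
    intro y z h
    by_contra hne
    obtain ⟨i, h1, -⟩ := w17_sep y z hne
    rw [h, sub_self, ZMod.val_zero] at h1
    omega
  refine ⟨Finset.univ.image w17, ?_, ?_⟩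
  · rw [Finset.card_image_of_injective _ hinj, Finset.card_univ, Fintype.card_fin]
  · intro x hx y hy hne
    obtain ⟨u, -, rfl⟩ := Finset.mem_image.1 hx
    obtain ⟨v, -, rfl⟩ := Finset.mem_image.1 hy
    exact w17_sep u v (fun h => hne (by rw [h]))

end Pool.Agent.Hhelper71.Dbl
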