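import Mathlib

/-!
# Subgroup codes in fraction graphs: integer lifts with small oscillation
-/

namespace Pool.Agent.Hhelper71.Dbl

variable {a : ℕ} {X : Type*}

/-- `x` has an integer lift on `T` with oscillation at most `D`. -/
def Osc (T : Finset X) (x : X → ZMod a) (D : ℤ) : Prop :=
  ∃ f : X → ℤ, (∀ t ∈ T, ((f t : ℤ) : ZMod a) = x t) ∧ ∀ s ∈ T, ∀ t ∈ T, f s - f t ≤ D

theorem Osc.mono {T T' : Finset X} {x : X → ZMod a} {D : ℤ} (h : Osc T x D) (hT : T' ⊆ T) :
    Osc T' x D := by
  obtain ⟨f, h1, h2⟩ := h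
  exact ⟨f, fun t ht => h1 t (hT ht), fun s hs t ht => h2 s (hT hs) t (hT ht)⟩

theorem half_card (T : Finset X) (p : X → Prop) [DecidablePred p] :
    T.card ≤ 2 * (T.filter p).card ∨ T.card ≤ 2 * (T.filter (fun t => ¬ p t)).card := by
  have h := Finset.card_filter_add_card_filter_not (s := T) p
  omega

theorem child [NeZero a] {T : Finset X} {x y : X → ZMod a} {D : ℤ} (hD : 0 ≤ D)
    (hy : Osc T y D) {ε : ℤ} (hε : ε = 0 ∨ ε = 1 ∨ ε = -1)
    (hrel : ∀ s ∈ T, ∀ t ∈ T, 2 * (x s - x t) = (ε : ZMod a) * (y s - y t)) :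
    ∃ T' ⊆ T, T.card ≤ 2 * T'.card ∧ Osc T' x D := by
  classical
  rcases T.eq_empty_or_nonempty with rfl | ⟨t0, ht0⟩
  · exact ⟨∅, subset_rfl, by simp, fun _ => 0, by simp, by simp⟩
  obtain ⟨f, hf1, hf2⟩ := hy
  have key : ∀ t, ∃ U r : ℤ, t ∈ T → (r = 0 ∨ r = 1) ∧ ((U : ℤ) : ZMod a) = x t ∧
      2 * (U - ((x t0).val : ℤ)) = ε * (f t - f t0) + a * r := by
    intro t
    by_cases ht : t ∈ T
    swap
    · exact ⟨0, 0, fun h => (ht h).elim⟩
    have h1 : ((2 * (((x t).val : ℤ) - ((x t0).val : ℤ)) - ε * (f t - f t0) : ℤ) : ZMod a) = 0 := by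
      push_cast
      rw [hf1 t ht, hf1 t0 ht0, ZMod.natCast_zmod_val, ZMod.natCast_zmod_val, hrel t ht t0 ht0,
        sub_self]
    rw [ZMod.intCast_zmod_eq_zero_iff_dvd] at h1
    obtain ⟨s, hs⟩ := h1
    refine ⟨(x t).val - a * (s / 2), s % 2, fun _ => ⟨?_, ?_, ?_⟩⟩
    · omega
    · push_cast
      rw [ZMod.natCast_zmod_val, ZMod.natCast_self]
      ring
    · have h2 : s = 2 * (s / 2) + s % 2 := by omega
      have h3 : (a : ℤ) * s = 2 * ((a : ℤ) * (s / 2)) + a * (s % 2) := by
        conv_lhs => rw [h2]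
        ring
      linarith
  choose U r hU using key
  have hosc : ∀ T' ⊆ T, (∀ s ∈ T', ∀ t ∈ T', r s = r t) → Osc T' x D := by
    intro T' hT' hr
    refine ⟨U, fun t ht => (hU t (hT' ht)).2.1, fun s hs t ht => ?_⟩
    have h1 := (hU s (hT' hs)).2.2
    have h2 := (hU t (hT' ht)).2.2
    rw [hr s hs t ht] at h1
    have h3 := hf2 s (hT' hs) t (hT' ht)
    have h4 := hf2 t (hT' ht) s (hT' hs)
    rcases hε with rfl | rfl | rfl <;> nlinarith
  rcases half_card T (fun t => r t = 0) with h | h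
  · refine ⟨_, Finset.filter_subset _ _, h, hosc _ (Finset.filter_subset _ _) ?_⟩
    intro s hs t ht
    rw [(Finset.mem_filter.1 hs).2, (Finset.mem_filter.1 ht).2]
  · refine ⟨_, Finset.filter_subset _ _, h, hosc _ (Finset.filter_subset _ _) ?_⟩
    intro s hs t ht
    obtain ⟨hs1, hs2⟩ := Finset.mem_filter.1 hs
    obtain ⟨ht1, ht2⟩ := Finset.mem_filter.1 ht
    have h1 := (hU s hs1).1
    have h2 := (hU t ht1).1
    omega

/-- Averaging over the translates of `W` by a subgroup `G`. -/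
theorem translates [NeZero a] (G : AddSubgroup (ZMod a)) (W : Finset (ZMod a))
    (hW : ∀ w ∈ W, w ∈ G) (T : Finset X) (u : X → ZMod a) (hu : ∀ t ∈ T, u t ∈ G) :
    ∃ θ : ZMod a, T.card * W.card ≤
      Nat.card G * (T.filter (fun t => u t - θ ∈ W)).card := by
  classical
  set G' : Finset (ZMod a) := Finset.univ.filter (fun z => z ∈ G) with hG'
  have hcard : Nat.card G = G'.card := by
    rw [hG', Nat.card_eq_fintype_card, Fintype.card_subtype]
  have hsum : ∑ θ ∈ G', (T.filter (fun t => u t - θ ∈ W)).card = T.card * W.card := by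
    simp_rw [Finset.card_filter]
    rw [Finset.sum_comm]
    have : ∀ t ∈ T, (∑ θ ∈ G', if u t - θ ∈ W then 1 else 0) = W.card := by
      intro t ht
      rw [← Finset.card_filter]
      refine Finset.card_bij' (fun θ _ => u t - θ) (fun w _ => u t - w) ?_ ?_ ?_ ?_
      · intro θ hθ
        exact (Finset.mem_filter.1 hθ).2
      · intro w hw
        rw [Finset.mem_filter, hG', Finset.mem_filter]
        refine ⟨⟨Finset.mem_univ _, G.sub_mem (hu t ht) (hW w hw)⟩, ?_⟩
        rw [sub_sub_cancel]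
        exact hw
      · intro θ _
        exact sub_sub_cancel _ _
      · intro w _
        exact sub_sub_cancel _ _
    rw [Finset.sum_congr rfl this, Finset.sum_const, smul_eq_mul]
  by_contra hcon
  push Not at hcon
  have h0 : (0 : ZMod a) ∈ G' := by
    rw [hG', Finset.mem_filter]
    exact ⟨Finset.mem_univ _, G.zero_mem⟩
  have hpos : 0 < G'.card := Finset.card_pos.2 ⟨0, h0⟩
  have h1 : ∀ θ ∈ G', G'.card * (T.filter (fun t => u t - θ ∈ W)).card < T.card * W.card := by
    intro θ _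
    have := hcon θ
    rwa [hcard] at this
  have h2 := Finset.sum_lt_sum_of_nonempty ⟨0, h0⟩ h1
  rw [← Finset.mul_sum, hsum, Finset.sum_const, smul_eq_mul] at h2
  exact lt_irrefl _ h2

theorem card_val_lt [NeZero a] {L : ℕ} (hL : L ≤ a) :
    (Finset.univ.filter (fun z : ZMod a => z.val < L)).card = L := by
  classical
  have : (Finset.univ.filter (fun z : ZMod a => z.val < L)).card = (Finset.range L).card := by
    refine Finset.card_bij' (fun z _ => z.val) (fun k _ => (k : ZMod a)) ?_ ?_ ?_ ?_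
    · intro z hz
      exact Finset.mem_range.2 (Finset.mem_filter.1 hz).2
    · intro k hk
      have hk' := Finset.mem_range.1 hk
      rw [Finset.mem_filter]
      exact ⟨Finset.mem_univ _, by rw [ZMod.val_natCast, Nat.mod_eq_of_lt (by omega)]; exact hk'⟩
    · intro z _
      exact ZMod.natCast_zmod_val z
    · intro k hk
      have hk' := Finset.mem_range.1 hk
      show ((k : ZMod a)).val = k
      rw [ZMod.val_natCast, Nat.mod_eq_of_lt (by omega)]
  rw [this, Finset.card_range]

/-- A window for a coordinate without relation. -/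
theorem window [NeZero a] {b : ℕ} (hba : b ≤ a) (T : Finset X) (x : X → ZMod a) :
    ∃ T' ⊆ T, T.card * b ≤ a * T'.card ∧ Osc T' x ((b : ℤ) - 1) := by
  classical
  obtain ⟨θ, hθ⟩ := translates (⊤ : AddSubgroup (ZMod a))
    (Finset.univ.filter (fun z : ZMod a => z.val < b)) (fun _ _ => AddSubgroup.mem_top _) T x
    (fun _ _ => AddSubgroup.mem_top _)
  refine ⟨T.filter (fun t => x t - θ ∈ Finset.univ.filter (fun z : ZMod a => z.val < b)),
    Finset.filter_subset _ _, ?_, fun t => ((x t - θ).val : ℤ) + (θ.val : ℤ), ?_, ?_⟩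
  · rw [card_val_lt hba] at hθ
    have : Nat.card (⊤ : AddSubgroup (ZMod a)) = a := by
      rw [AddSubgroup.card_top, Nat.card_zmod]
    rwa [this] at hθ
  · intro t _
    push_cast
    rw [ZMod.natCast_zmod_val, ZMod.natCast_zmod_val]
    ring
  · intro s hs t ht
    have h1 := (Finset.mem_filter.1 (Finset.mem_filter.1 hs).2).2
    have h2 := (Finset.mem_filter.1 (Finset.mem_filter.1 ht).2).2
    dsimp only
    omega

/-- The kernel of multiplication by an integer on `ZMod a`. -/
def ker (a : ℕ) (M : ℤ) : AddSubgroup (ZMod a) where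
  carrier := {z | (M : ZMod a) * z = 0}
  zero_mem' := by simp
  add_mem' := by
    intro x y hx hy
    simp only [Set.mem_ofPred_eq] at hx hy ⊢
    rw [mul_add, hx, hy, add_zero]
  neg_mem' := by
    intro x hx
    simp only [Set.mem_ofPred_eq] at hx ⊢
    rw [mul_neg, hx, neg_zero]

theorem mem_ker {M : ℤ} {z : ZMod a} : z ∈ ker a M ↔ (M : ZMod a) * z = 0 := Iff.rfl

theorem card_ker_le [NeZero a] {M : ℕ} (hM : 0 < M) : Nat.card (ker a (M : ℤ)) ≤ M := by
  classical
  have h := IsAddCyclic.card_nsmul_eq_zero_le (α := ZMod a) hM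
  have h2 : Nat.card (ker a (M : ℤ)) = (Finset.univ.filter (fun z : ZMod a => M • z = 0)).card := by
    rw [Nat.card_eq_fintype_card, Fintype.card_subtype]
    congr 1
    ext z
    simp only [Finset.mem_filter, Finset.mem_univ, true_and, mem_ker, nsmul_eq_mul]
    push_cast
    rfl
  rw [h2]
  exact h

theorem card_ker_dvd [NeZero a] (M : ℤ) : Nat.card (ker a M) ∣ a := by
  have h := AddSubgroup.card_addSubgroup_dvd_card (ker a M)
  rwa [Nat.card_zmod] at h

end Pool.Agent.Hhelper71.Dbl
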