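import Mathlib

/-!
# The Thue-Morse orbits modulo Fermat numbers
-/

namespace Pool.Agent.Hhelper71.Dbl

/-- `1, 2, 7, 106, ...`. -/
def fM : ℕ → ℤ
  | 0 => 1
  | j + 1 => (2 ^ (2 ^ j) - 1) * fM j + 1

/-- `1, 1, 3, 45, ...`: the product of the numbers `2 ^ (2 ^ i) - 1`, `i < j`. -/
def fc : ℕ → ℤ
  | 0 => 1
  | j + 1 => (2 ^ (2 ^ j) - 1) * fc j

theorem two_le_Q (j : ℕ) : (2 : ℤ) ≤ 2 ^ (2 ^ j) := by
  calc (2 : ℤ) = 2 ^ 1 := by norm_num
    _ ≤ 2 ^ (2 ^ j) := pow_le_pow_right₀ (by norm_num) Nat.one_le_two_pow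

theorem Q_succ (j : ℕ) : (2 : ℤ) ^ (2 ^ (j + 1)) = 2 ^ (2 ^ j) * 2 ^ (2 ^ j) := by
  rw [← pow_add, pow_succ, mul_two]

theorem fM_fc (j : ℕ) : 2 * fM j + fc j = 2 ^ (2 ^ j) + 1 := by
  induction j with
  | zero => simp [fM, fc]
  | succ j ih =>
    rw [Q_succ, fM, fc]
    linear_combination (2 ^ (2 ^ j) - 1) * ih

theorem fc_pos (j : ℕ) : 1 ≤ fc j := by
  induction j with
  | zero => simp [fc]
  | succ j ih =>
    rw [fc]
    have := two_le_Q j
    nlinarith

theorem fM_pos (j : ℕ) : 1 ≤ fM j := by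
  induction j with
  | zero => simp [fM]
  | succ j ih =>
    rw [fM]
    have := two_le_Q j
    nlinarith

theorem fc_le (j : ℕ) : fc j ≤ 2 ^ (2 ^ j) - 1 := by
  induction j with
  | zero => simp [fc]
  | succ j ih =>
    rw [fc, Q_succ]
    have := two_le_Q j
    nlinarith

theorem orbit (j : ℕ) : ∀ t < 2 ^ j, ∃ w k : ℤ, 2 ^ t * fc j = w + k * (2 ^ (2 ^ j) + 1) ∧
    0 ≤ k ∧ -fM j + 1 ≤ w ∧ (w + 2 * k + 1 ≤ fM j ∨ (t + 1 = 2 ^ j ∧ w = fM j)) := by
  induction j with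
  | zero =>
    intro t ht
    have : t = 0 := by simpa using ht
    subst this
    exact ⟨1, 0, by simp [fc], le_rfl, by simp [fM], Or.inr ⟨by simp, by simp [fM]⟩⟩
  | succ j ih =>
    have hQ := two_le_Q j
    have hMc := fM_fc j
    have hc1 := fc_pos j
    have hM1 := fM_pos j
    have hc2 := fc_le j
    -- the bound on `k`
    have hk : ∀ t < 2 ^ j, ∀ w k : ℤ, 2 ^ t * fc j = w + k * (2 ^ (2 ^ j) + 1) →
        -fM j + 1 ≤ w → 2 * k ≤ fc j := by
      intro t ht w k h1 h2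
      have h3 : 2 * (2 : ℤ) ^ t ≤ 2 ^ (2 ^ j) := by
        rw [← pow_succ']
        exact pow_le_pow_right₀ (by norm_num) (by have := Nat.lt_two_pow_self (n := j); have h4 : t + 1 ≤ 2 ^ j := ht; omega)
      have h4 : 2 * ((2 : ℤ) ^ t * fc j) ≤ 2 ^ (2 ^ j) * fc j := by nlinarith
      by_contra hcon
      push Not at hcon
      have h5 : fc j + 1 ≤ 2 * k := hcon
      have h6 : (fc j + 1) * (2 ^ (2 ^ j) + 1) ≤ 2 * k * (2 ^ (2 ^ j) + 1) := by nlinarith
      nlinarith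
    intro t ht
    set Q : ℤ := 2 ^ (2 ^ j) with hQdef
    rw [Q_succ, fM, fc, ← hQdef]
    rw [pow_succ] at ht
    by_cases htj : t < 2 ^ j
    · obtain ⟨w, k, h1, h2, h3, h4⟩ := ih t htj
      have hk' := hk t htj w k h1 h3
      have hwM : w ≤ fM j := by
        rcases h4 with h4 | ⟨_, h4⟩
        · linarith
        · exact h4.le
      refine ⟨(Q - 1) * w - 2 * k, k, ?_, h2, ?_, Or.inl ?_⟩
      · linear_combination (Q - 1) * h1
      · nlinarith
      · nlinarith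
    · obtain ⟨t', rfl⟩ : ∃ t', t = 2 ^ j + t' := ⟨t - 2 ^ j, by omega⟩
      have ht' : t' < 2 ^ j := by omega
      obtain ⟨w, k, h1, h2, h3, h4⟩ := ih t' ht'
      have hpow : (2 : ℤ) ^ (2 ^ j + t') = Q * 2 ^ t' := by rw [pow_add]
      rw [hpow]
      have hkk : 1 ≤ w + k * Q := by
        rcases eq_or_lt_of_le h2 with h5 | h5
        · rw [← h5] at h1
          have h6 : (1 : ℤ) ≤ 2 ^ t' := one_le_pow₀ (by norm_num)
          nlinarith
        · nlinarith
      rcases h4 with h4 | ⟨h4, h5⟩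
      · refine ⟨-((Q + 1) * w) - 2 * k * Q, w + k * Q, ?_, by linarith, ?_, Or.inl ?_⟩
        · linear_combination (Q * (Q - 1)) * h1
        · nlinarith
        · nlinarith
      · refine ⟨(Q - 1) * fM j + 1, w + k * Q - 1, ?_, by linarith, ?_, Or.inr ⟨?_, rfl⟩⟩
        · have h6 : 2 * k + 1 = fc j := by
            have h7 : 2 * (2 : ℤ) ^ t' = Q := by
              rw [← pow_succ', h4]
            have h8 : (Q + 1) * (2 * k + 1) = (Q + 1) * fc j := by
              subst h5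
              linear_combination -2 * h1 + fc j * h7 - hMc
            exact mul_left_cancel₀ (by linarith) h8
          subst h5
          linear_combination (Q * (Q - 1)) * h1 - Q * hMc - Q * h6
        · nlinarith
        · rw [pow_succ]
          omega

theorem orbit_all (j : ℕ) (t : ℕ) : ∃ w : ℤ, |w| ≤ fM j ∧
    ((2 : ℤ) ^ (2 ^ j) + 1) ∣ 2 ^ t * fc j - w := by
  induction t using Nat.strong_induction_on with
  | _ t ih =>
    by_cases ht : t < 2 ^ j
    · obtain ⟨w, k, h1, h2, h3, h4⟩ := orbit j t ht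
      have hM1 := fM_pos j
      refine ⟨w, ?_, k, by linear_combination h1⟩
      rw [abs_le]
      refine ⟨by linarith, ?_⟩
      rcases h4 with h4 | ⟨_, h4⟩
      · linarith
      · exact h4.le
    · obtain ⟨t', rfl⟩ : ∃ t', t = 2 ^ j + t' := ⟨t - 2 ^ j, by omega⟩
      obtain ⟨w, hw, k, hk⟩ := ih t' (by have := Nat.one_le_two_pow (n := j); omega)
      refine ⟨-w, by rwa [abs_neg], 2 ^ t' * fc j - k, ?_⟩
      rw [pow_add]
      linear_combination -hk

/-- For `N = 2 ^ 2 ^ j + 1` dividing `a` there is a nonzero `z` killed by `N` all whose multiples by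
powers of two are small. -/
theorem good_elt {a b : ℕ} [NeZero a] (j : ℕ) (hN : 2 ^ (2 ^ j) + 1 ∣ a)
    (hab : (a : ℤ) * fM j < b * (2 ^ (2 ^ j) + 1)) :
    ∃ z : ZMod a, z ≠ 0 ∧ (((2 ^ (2 ^ j) + 1 : ℕ)) : ZMod a) * z = 0 ∧
      ∀ t : ℕ, ∃ w : ℤ, |w| ≤ (b : ℤ) - 1 ∧ (w : ZMod a) = 2 ^ t * z := by
  obtain ⟨e, he⟩ := hN
  have hepos : 0 < e := by
    rcases Nat.eq_zero_or_pos e with h | h
    · rw [h, mul_zero] at he
      exact (NeZero.ne a he).elim
    · exact h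
  have hN1 : (0 : ℤ) < 2 ^ (2 ^ j) + 1 := by positivity
  refine ⟨(((e : ℤ) * fc j : ℤ) : ZMod a), ?_, ?_, ?_⟩
  · rw [Ne, ZMod.intCast_zmod_eq_zero_iff_dvd, he]
    push_cast
    rw [mul_comm (((2 : ℤ) ^ (2 ^ j) + 1)) (e : ℤ),
      mul_dvd_mul_iff_left (by exact_mod_cast hepos.ne')]
    intro h
    have h1 := Int.le_of_dvd (by linarith [fc_pos j]) h
    linarith [fc_le j]
  · have : ((((2 ^ (2 ^ j) + 1 : ℕ) : ℤ) * ((e : ℤ) * fc j) : ℤ) : ZMod a) = 0 := by
      rw [ZMod.intCast_zmod_eq_zero_iff_dvd, he]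
      push_cast
      exact ⟨fc j, by ring⟩
    push_cast at this ⊢
    exact this
  · intro t
    obtain ⟨w, hw, k, hk⟩ := orbit_all j t
    refine ⟨e * w, ?_, ?_⟩
    · rw [abs_mul, abs_of_pos (by exact_mod_cast hepos : (0 : ℤ) < e)]
      have h1 : (e : ℤ) * |w| ≤ e * fM j := by
        have : (0 : ℤ) ≤ e := by positivity
        nlinarith
      have h2 : (e : ℤ) * fM j < b := by
        rw [he] at hab
        push_cast at hab
        have h3 : (2 ^ (2 ^ j) + 1) * ((e : ℤ) * fM j) < (2 ^ (2 ^ j) + 1) * b := by linarith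
        exact lt_of_mul_lt_mul_left h3 hN1.le
      linarith
    · have h1 : ((e * w - 2 ^ t * ((e : ℤ) * fc j) : ℤ) : ZMod a) = 0 := by
        rw [ZMod.intCast_zmod_eq_zero_iff_dvd, he]
        push_cast
        exact ⟨-k, by linear_combination -(e : ℤ) * hk⟩
      push_cast at h1 ⊢
      linear_combination h1

end Pool.Agent.Hhelper71.Dbl
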