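import Pool.Agent.Hhelper71.Dbl.Core
import Pool.Agent.Hhelper71.Dbl.Fermat

/-!
# The cycle step
-/

namespace Pool.Agent.Hhelper71.Dbl

variable {a : ℕ} {X : Type*}

theorem two_point [NeZero a] {b : ℕ} {z : ZMod a}
    (hz : ∀ k : ℕ, ∃ w : ℤ, |w| ≤ (b : ℤ) - 1 ∧ (w : ZMod a) = 2 ^ k * z) {T : Finset X}
    {y : X → ZMod a} {θ : ZMod a} (hT : ∀ t ∈ T, y t - θ = 0 ∨ y t - θ = z) (k : ℕ) {δ : ℤ}
    (hδ : δ = 1 ∨ δ = -1) {x : X → ZMod a}
    (hx : ∀ s ∈ T, ∀ t ∈ T, x s - x t = (δ : ZMod a) * (2 ^ k * (y s - y t))) :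
    Osc T x ((b : ℤ) - 1) := by
  classical
  rcases T.eq_empty_or_nonempty with rfl | ⟨t1, ht1⟩
  · exact ⟨fun _ => 0, by simp, by simp⟩
  obtain ⟨w, hw1, hw2⟩ := hz k
  set g : X → ℤ := fun t => if y t = θ then 0 else δ * w with hg
  have hgc : ∀ t ∈ T, ((g t : ℤ) : ZMod a) = (δ : ZMod a) * (2 ^ k * (y t - θ)) := by
    intro t ht
    rw [hg]
    by_cases h : y t = θ
    · simp [h]
    · simp only [h, if_false]
      rcases hT t ht with h1 | h1
      · exact (h (sub_eq_zero.1 h1)).elim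
      · rw [h1]
        push_cast
        rw [hw2]
  have hgd : ∀ s t, g s - g t ≤ (b : ℤ) - 1 := by
    intro s t
    rw [hg]
    dsimp only
    obtain ⟨h1, h2⟩ := abs_le.1 hw1
    rcases hδ with rfl | rfl <;> split_ifs <;> linarith
  refine ⟨fun t => ((x t1).val : ℤ) - g t1 + g t, fun t ht => ?_, fun s _ t _ => ?_⟩
  · push_cast
    rw [ZMod.natCast_zmod_val, hgc t ht, hgc t1 ht1]
    linear_combination -(hx t ht t1 ht1)
  · dsimp only
    linarith [hgd s t]

theorem cycle [NeZero a] {b : ℕ} (hb : 0 < b) {C : ℝ} (hC2 : 2 ≤ C)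
    (hC : ∀ i, (a : ℤ) * fM i < b * (2 ^ (2 ^ i) + 1) ∨ ∀ m : ℕ, 2 ^ i ≤ m → (2 : ℝ) ^ m + 1 ≤ C ^ m)
    {m : ℕ} (hm : 0 < m) {ε : ℤ} (hε : ε = 1 ∨ ε = -1) (T : Finset X) (y : X → ZMod a)
    (hrel : ∀ s ∈ T, ∀ t ∈ T, 2 ^ m * (y s - y t) = (ε : ZMod a) * (y s - y t)) :
    ∃ T' ⊆ T, (T.card : ℝ) ≤ C ^ m * T'.card ∧ ∀ (k : ℕ) (δ : ℤ), (δ = 1 ∨ δ = -1) →
      ∀ x : X → ZMod a, (∀ s ∈ T', ∀ t ∈ T', x s - x t = (δ : ZMod a) * (2 ^ k * (y s - y t))) →
        Osc T' x ((b : ℤ) - 1) := by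
  classical
  rcases T.eq_empty_or_nonempty with rfl | ⟨t0, ht0⟩
  · exact ⟨∅, subset_rfl, by simp, fun _ _ _ _ _ => ⟨fun _ => 0, by simp, by simp⟩⟩
  have hp : 1 < 2 ^ m := Nat.one_lt_two_pow hm.ne'
  set G := ker a (2 ^ m - ε) with hG
  have hu : ∀ t ∈ T, y t - y t0 ∈ G := by
    intro t ht
    rw [hG, mem_ker]
    push_cast
    linear_combination hrel t ht t0 ht0
  have h2C : (2 : ℝ) ^ m ≤ C ^ m := pow_le_pow_left₀ (by norm_num) hC2 m
  by_cases hcard : (Nat.card G : ℝ) ≤ C ^ m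
  · obtain ⟨θ, hθ⟩ := translates G {0} (by
      intro w hw
      rw [Finset.mem_singleton.1 hw]
      exact G.zero_mem) T (fun t => y t - y t0) hu
    refine ⟨T.filter (fun t => (y t - y t0) - θ ∈ ({0} : Finset (ZMod a))),
      Finset.filter_subset _ _, ?_, fun k δ hδ x hx => ?_⟩
    rotate_left
    · refine two_point (z := 0) (θ := y t0 + θ) (fun k => ⟨0, ?_, ?_⟩) ?_ k hδ hx
      · rw [abs_zero]
        have : (1 : ℤ) ≤ b := by exact_mod_cast hb
        linarith
      · simp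
      · intro t ht
        left
        have := Finset.mem_singleton.1 (Finset.mem_filter.1 ht).2
        rw [← this]
        ring
    · rw [Finset.card_singleton, mul_one] at hθ
      have h1 : (T.card : ℝ) ≤ (Nat.card G : ℝ) *
          (T.filter (fun t => (y t - y t0) - θ ∈ ({0} : Finset (ZMod a)))).card := by
        exact_mod_cast hθ
      exact h1.trans (mul_le_mul_of_nonneg_right hcard (Nat.cast_nonneg _))
  · -- the group is the full group of order `2 ^ m + 1`
    push Not at hcard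
    have hcard' : 2 ^ m < Nat.card G := by
      have : (2 : ℝ) ^ m < (Nat.card G : ℝ) := h2C.trans_lt hcard
      exact_mod_cast this
    have hε' : ε = -1 := by
      rcases hε with h | h
      · exfalso
        have h1 : (2 ^ m - ε : ℤ) = ((2 ^ m - 1 : ℕ) : ℤ) := by
          rw [h, Nat.cast_sub hp.le]
          push_cast
          rfl
        have h2 := card_ker_le (a := a) (M := 2 ^ m - 1) (by omega)
        rw [← h1, ← hG] at h2
        omega
      · exact h
    have h1 : (2 ^ m - ε : ℤ) = ((2 ^ m + 1 : ℕ) : ℤ) := by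
      rw [hε']
      push_cast
      ring
    have h2 := card_ker_le (a := a) (M := 2 ^ m + 1) (by omega)
    rw [← h1, ← hG] at h2
    have hcG : Nat.card G = 2 ^ m + 1 := by omega
    have hdvd : 2 ^ m + 1 ∣ a := by
      rw [← hcG]
      exact card_ker_dvd _
    obtain ⟨j, s, hs, hjs⟩ := Nat.exists_eq_two_pow_mul_odd hm.ne'
    have hNd : 2 ^ (2 ^ j) + 1 ∣ 2 ^ m + 1 := by
      have := Odd.nat_add_dvd_pow_add_pow (2 ^ (2 ^ j)) 1 hs
      rwa [one_pow, ← pow_mul, ← hjs] at this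
    have habj : (a : ℤ) * fM j < b * (2 ^ (2 ^ j) + 1) := by
      rcases hC j with h | h
      · exact h
      · exfalso
        have h3 := h m (by
          rw [hjs]
          exact Nat.le_mul_of_pos_right _ hs.pos)
        rw [hcG] at hcard
        push_cast at hcard
        linarith
    obtain ⟨z, hz0, hz1, hz2⟩ := good_elt (b := b) j (hNd.trans hdvd) habj
    have hzG : z ∈ G := by
      rw [hG, mem_ker, h1]
      obtain ⟨e, he⟩ := hNd
      rw [he]
      push_cast at hz1 ⊢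
      linear_combination (e : ZMod a) * hz1
    obtain ⟨θ, hθ⟩ := translates G {0, z} (by
      intro w hw
      rw [Finset.mem_insert, Finset.mem_singleton] at hw
      rcases hw with rfl | rfl
      · exact G.zero_mem
      · exact hzG) T (fun t => y t - y t0) hu
    refine ⟨T.filter (fun t => (y t - y t0) - θ ∈ ({0, z} : Finset (ZMod a))),
      Finset.filter_subset _ _, ?_, fun k δ hδ x hx => ?_⟩
    rotate_left
    · refine two_point (z := z) (θ := y t0 + θ) hz2 ?_ k hδ hx
      intro t ht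
      have h3 := (Finset.mem_filter.1 ht).2
      rw [Finset.mem_insert, Finset.mem_singleton] at h3
      rcases h3 with h3 | h3
      · left
        linear_combination h3
      · right
        linear_combination h3
    · rw [Finset.card_pair hz0.symm, hcG] at hθ
      have h4 : T.card ≤ 2 ^ m *
          (T.filter (fun t => (y t - y t0) - θ ∈ ({0, z} : Finset (ZMod a)))).card := by
        nlinarith
      have h5 : (T.card : ℝ) ≤ 2 ^ m *
          (T.filter (fun t => (y t - y t0) - θ ∈ ({0, z} : Finset (ZMod a)))).card := by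
        exact_mod_cast h4
      exact h5.trans (mul_le_mul_of_nonneg_right h2C (Nat.cast_nonneg _))

end Pool.Agent.Hhelper71.Dbl
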