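import Pool.Agent.Hhelper71.Dbl.Cycle

/-!
# Codes with a set of coordinates that is closed under doubling up to sign
-/

namespace Pool.Agent.Hhelper71.Dbl

variable {a : ℕ} {ι : Type*}

theorem iterate_rel {H : AddSubgroup (ι → ZMod a)} {U : Finset ι} {σ : ι → ι} {e : ι → ℤ}
    (he : ∀ i ∈ U, (e i = 1 ∨ e i = -1) ∧ σ i ∈ U ∧ ∀ h ∈ H, 2 * h i = (e i : ZMod a) * h (σ i))
    {i : ι} (hi : i ∈ U) (k : ℕ) :
    σ^[k] i ∈ U ∧ ∃ δ : ℤ, (δ = 1 ∨ δ = -1) ∧
      ∀ h ∈ H, h (σ^[k] i) = (δ : ZMod a) * (2 ^ k * h i) := by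
  induction k with
  | zero => exact ⟨hi, 1, Or.inl rfl, fun h _ => by simp⟩
  | succ k ih =>
    obtain ⟨h1, δ, hδ, h2⟩ := ih
    obtain ⟨h3, h4, h5⟩ := he _ h1
    rw [Function.iterate_succ_apply']
    refine ⟨h4, e (σ^[k] i) * δ, ?_, fun h hh => ?_⟩
    · rcases h3 with h3 | h3 <;> rcases hδ with h6 | h6 <;> rw [h3, h6] <;> simp
    · have h6 := h5 h hh
      rw [h2 h hh] at h6
      rcases h3 with h3 | h3
      · rw [h3] at h6 ⊢
        push_cast at h6 ⊢
        linear_combination -h6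
      · rw [h3] at h6 ⊢
        push_cast at h6 ⊢
        linear_combination h6

variable [Fintype ι] [DecidableEq ι]

theorem process [NeZero a] {b : ℕ} (hb : 0 < b) {C : ℝ} (hC2 : 2 ≤ C)
    (hC : ∀ i, (a : ℤ) * fM i < b * (2 ^ (2 ^ i) + 1) ∨ ∀ m : ℕ, 2 ^ i ≤ m → (2 : ℝ) ^ m + 1 ≤ C ^ m)
    (H : AddSubgroup (ι → ZMod a))
    (R S : Finset ι) (σ : ι → ι) (e : ι → ℤ)
    (he : ∀ i ∈ R, (e i = 0 ∨ e i = 1 ∨ e i = -1) ∧ σ i ∈ S ∧
      ∀ h ∈ H, 2 * h i = (e i : ZMod a) * h (σ i))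
    (N : ℕ) : ∀ (P : Finset ι) (T : Finset (ι → ZMod a)), (∀ t ∈ T, t ∈ H) → P ⊆ S →
      (∀ i ∈ S, i ∉ R → i ∈ P) → (∀ i ∈ P, Osc T (fun t => t i) ((b : ℤ) - 1)) →
      (S \ P).card = N →
      ∃ T' ⊆ T, (T.card : ℝ) ≤ C ^ N * T'.card ∧
        ∀ i ∈ S, Osc T' (fun t => t i) ((b : ℤ) - 1) := by
  have hb1 : (0 : ℤ) ≤ (b : ℤ) - 1 := by
    have : (1 : ℤ) ≤ b := by exact_mod_cast hb
    linarith
  have hC0 : (0 : ℝ) ≤ C := by linarith
  induction N using Nat.strong_induction_on with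
  | _ N ih =>
    intro P T hT hPS hP hosc hN
    by_cases hPe : S \ P = ∅
    · refine ⟨T, subset_rfl, ?_, fun i hiS => hosc i ?_⟩
      · exact le_mul_of_one_le_left (Nat.cast_nonneg _) (one_le_pow₀ (by linarith))
      by_contra hi
      have : i ∈ S \ P := Finset.mem_sdiff.2 ⟨hiS, hi⟩
      rw [hPe] at this
      exact absurd this (Finset.notMem_empty i)
    by_cases hA : ∃ i ∈ S \ P, (e i = 0 ∨ σ i ∈ P)
    · obtain ⟨i, hiSP, hi⟩ := hA
      obtain ⟨hiS, hiP⟩ := Finset.mem_sdiff.1 hiSP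
      have hiR : i ∈ R := by
        by_contra h
        exact hiP (hP i hiS h)
      obtain ⟨he1, -, he2⟩ := he i hiR
      have hstep : ∃ T' ⊆ T, T.card ≤ 2 * T'.card ∧ Osc T' (fun t => t i) ((b : ℤ) - 1) := by
        rcases hi with hi | hi
        · refine child (y := fun _ => 0) (ε := 0) hb1
            ⟨fun _ => 0, by simp, fun _ _ _ _ => by simpa using hb1⟩
            (Or.inl rfl) fun s hs t ht => ?_
          have h1 := he2 _ (H.sub_mem (hT s hs) (hT t ht))
          rw [hi] at h1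
          simpa using h1
        · refine child (y := fun t => t (σ i)) (ε := e i) hb1 (hosc _ hi) he1
            fun s hs t ht => ?_
          exact he2 _ (H.sub_mem (hT s hs) (hT t ht))
      obtain ⟨T1, hT1, hc1, ho1⟩ := hstep
      have hcard : (S \ insert i P).card + 1 = N := by
        rw [← hN, Finset.sdiff_insert, Finset.card_erase_add_one hiSP]
      obtain ⟨T2, hT2, hc2, ho2⟩ := ih (S \ insert i P).card (by omega) (insert i P) T1
        (fun t ht => hT t (hT1 ht)) (Finset.insert_subset hiS hPS)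
        (fun j hjS hj => Finset.mem_insert_of_mem (hP j hjS hj)) (by
          intro j hj
          rw [Finset.mem_insert] at hj
          rcases hj with rfl | hj
          · exact ho1
          · exact (hosc j hj).mono hT1) rfl
      refine ⟨T2, hT2.trans hT1, ?_, ho2⟩
      have hc1' : (T.card : ℝ) ≤ 2 * T1.card := by exact_mod_cast hc1
      calc (T.card : ℝ) ≤ 2 * T1.card := hc1'
        _ ≤ C * T1.card := mul_le_mul_of_nonneg_right hC2 (Nat.cast_nonneg _)
        _ ≤ C * (C ^ (S \ insert i P).card * T2.card) := mul_le_mul_of_nonneg_left hc2 hC0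
        _ = C ^ N * T2.card := by
          rw [← mul_assoc, ← pow_succ', hcard]
    · push Not at hA
      have he' : ∀ i ∈ S \ P, (e i = 1 ∨ e i = -1) ∧ σ i ∈ S \ P ∧
          ∀ h ∈ H, 2 * h i = (e i : ZMod a) * h (σ i) := by
        intro i hi
        obtain ⟨hiS, hiP⟩ := Finset.mem_sdiff.1 hi
        have hiR : i ∈ R := by
          by_contra h
          exact hiP (hP i hiS h)
        obtain ⟨h1, h5, h2⟩ := he i hiR
        obtain ⟨h3, h4⟩ := hA i hi
        exact ⟨h1.resolve_left h3, Finset.mem_sdiff.2 ⟨h5, h4⟩, h2⟩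
      obtain ⟨i0, hi0⟩ := Finset.nonempty_of_ne_empty hPe
      obtain ⟨p, q, hpq, hpq'⟩ := Finite.exists_ne_map_eq_of_infinite (fun k : ℕ => σ^[k] i0)
      have hper : ∃ i1 ∈ S \ P, ∃ r, 0 < r ∧ Function.IsPeriodicPt σ r i1 := by
        rcases lt_or_gt_of_ne hpq with h | h
        · refine ⟨σ^[p] i0, (iterate_rel he' hi0 p).1, q - p, by omega, ?_⟩
          rw [Function.IsPeriodicPt, Function.IsFixedPt, ← Function.iterate_add_apply,
            Nat.sub_add_cancel h.le]
          exact hpq'.symm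
        · refine ⟨σ^[q] i0, (iterate_rel he' hi0 q).1, p - q, by omega, ?_⟩
          rw [Function.IsPeriodicPt, Function.IsFixedPt, ← Function.iterate_add_apply,
            Nat.sub_add_cancel h.le]
          exact hpq'
      obtain ⟨i1, hi1, r, hr, hper⟩ := hper
      set m := Function.minimalPeriod σ i1 with hm
      have hmpos : 0 < m := hper.minimalPeriod_pos hr
      obtain ⟨-, ε, hε, hrel⟩ := iterate_rel he' hi1 m
      rw [hm, Function.iterate_minimalPeriod, ← hm] at hrel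
      obtain ⟨T1, hT1, hc1, ho1⟩ := cycle hb hC2 hC hmpos hε T (fun t => t i1) (by
        intro s hs t ht
        have h1 := hrel _ (H.sub_mem (hT s hs) (hT t ht))
        simp only [Pi.sub_apply] at h1
        rcases hε with hε | hε
        · rw [hε] at h1 ⊢
          push_cast at h1 ⊢
          linear_combination -h1
        · rw [hε] at h1 ⊢
          push_cast at h1 ⊢
          linear_combination h1)
      set Y : Finset ι := (Finset.range m).image (fun k => σ^[k] i1) with hY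
      have hCP : Y ⊆ S \ P := by
        intro i hi
        obtain ⟨k, _, rfl⟩ := Finset.mem_image.1 hi
        exact (iterate_rel he' hi1 k).1
      have hCcard : Y.card = m := by
        rw [hY, Finset.card_image_of_injOn, Finset.card_range]
        intro k hk l hl hkl
        exact Function.iterate_injOn_Iio_minimalPeriod
          (Finset.mem_range.1 (Finset.mem_coe.1 hk)) (Finset.mem_range.1 (Finset.mem_coe.1 hl)) hkl
      have hcard : (S \ (P ∪ Y)).card + m = N := by
        have hsd : S \ (P ∪ Y) = (S \ P) \ Y := by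
          ext i
          simp only [Finset.mem_sdiff, Finset.mem_union, not_or]
          tauto
        rw [hsd, Finset.card_sdiff_of_subset hCP, hCcard, hN]
        have := Finset.card_le_card hCP
        rw [hCcard, hN] at this
        omega
      obtain ⟨T2, hT2, hc2, ho2⟩ := ih (S \ (P ∪ Y)).card (by omega) (P ∪ Y) T1
        (fun t ht => hT t (hT1 ht))
        (Finset.union_subset hPS (hCP.trans Finset.sdiff_subset))
        (fun j hjS hj => Finset.mem_union_left _ (hP j hjS hj)) (by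
          intro j hj
          rw [Finset.mem_union] at hj
          rcases hj with hj | hj
          · exact (hosc j hj).mono hT1
          · obtain ⟨k, _, rfl⟩ := Finset.mem_image.1 hj
            obtain ⟨-, δ, hδ, hrel'⟩ := iterate_rel he' hi1 k
            refine ho1 k δ hδ _ fun s hs t ht => ?_
            exact hrel' _ (H.sub_mem (hT s (hT1 hs)) (hT t (hT1 ht)))) rfl
      refine ⟨T2, hT2.trans hT1, ?_, ho2⟩
      calc (T.card : ℝ) ≤ C ^ m * T1.card := hc1
        _ ≤ C ^ m * (C ^ (S \ (P ∪ Y)).card * T2.card) :=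
          mul_le_mul_of_nonneg_left hc2 (pow_nonneg hC0 _)
        _ = C ^ N * T2.card := by
          rw [← mul_assoc, ← pow_add, add_comm m, hcard]

omit [Fintype ι] in
theorem roots [NeZero a] {b : ℕ} (hba : b ≤ a) (T : Finset (ι → ZMod a)) (S : Finset ι) :
    ∃ T' ⊆ T, T.card * b ^ S.card ≤ a ^ S.card * T'.card ∧
      ∀ i ∈ S, Osc T' (fun t => t i) ((b : ℤ) - 1) := by
  induction S using Finset.induction_on with
  | empty => exact ⟨T, subset_rfl, by simp, by simp⟩
  | insert i S hi ih =>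
    obtain ⟨T1, hT1, hc1, ho1⟩ := ih
    obtain ⟨T2, hT2, hc2, ho2⟩ := window hba T1 (fun t => t i)
    refine ⟨T2, hT2.trans hT1, ?_, ?_⟩
    · rw [Finset.card_insert_of_notMem hi]
      calc T.card * b ^ (S.card + 1) = (T.card * b ^ S.card) * b := by ring
        _ ≤ (a ^ S.card * T1.card) * b := Nat.mul_le_mul_right _ hc1
        _ = a ^ S.card * (T1.card * b) := by ring
        _ ≤ a ^ S.card * (a * T2.card) := Nat.mul_le_mul_left _ hc2
        _ = a ^ (S.card + 1) * T2.card := by ring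
    · intro j hj
      rw [Finset.mem_insert] at hj
      rcases hj with rfl | hj
      · exact ho2
      · exact (ho1 j hj).mono hT2

/-- Elements of `H` in a set with small oscillations are separated by the other coordinates. -/
theorem exists_clique [NeZero a] {b : ℕ} (hb : 0 < b) (hba : b ≤ a) {C : ℝ} (hC2 : 2 ≤ C)
    (hC : ∀ i, (a : ℤ) * fM i < b * (2 ^ (2 ^ i) + 1) ∨ ∀ m : ℕ, 2 ^ i ≤ m → (2 : ℝ) ^ m + 1 ≤ C ^ m)
    (H : AddSubgroup (ι → ZMod a))
    (hH : ∀ x ∈ H, x ≠ 0 → ∃ i, b ≤ (x i).val ∧ b ≤ (-x i).val) (R J : Finset ι)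
    (hRJ : Disjoint R J)
    (hR : ∀ i ∈ R, ∃ j ∈ R ∪ J, (∀ x ∈ H, 2 * x i = 0) ∨ (∀ x ∈ H, 2 * x i = x j) ∨
      (∀ x ∈ H, 2 * x i = -x j)) :
    ∃ T : Finset (ι → ZMod a),
      (Nat.card H : ℝ) * (b : ℝ) ^ J.card ≤ C ^ R.card * (a : ℝ) ^ J.card * T.card ∧
      ∀ x ∈ T, ∀ y ∈ T, x ≠ y → ∃ i ∉ R ∪ J, b ≤ (x i - y i).val ∧ b ≤ (y i - x i).val := by
  classical
  have key : ∀ i, ∃ (j : ι) (ε : ℤ), i ∈ R → (ε = 0 ∨ ε = 1 ∨ ε = -1) ∧ j ∈ R ∪ J ∧
      ∀ h ∈ H, 2 * h i = (ε : ZMod a) * h j := by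
    intro i
    by_cases hi : i ∈ R
    swap
    · exact ⟨i, 0, fun h => (hi h).elim⟩
    obtain ⟨j, hj, h | h | h⟩ := hR i hi
    · exact ⟨j, 0, fun _ => ⟨Or.inl rfl, hj, fun x hx => by rw [h x hx]; simp⟩⟩
    · exact ⟨j, 1, fun _ => ⟨Or.inr (Or.inl rfl), hj, fun x hx => by rw [h x hx]; simp⟩⟩
    · exact ⟨j, -1, fun _ => ⟨Or.inr (Or.inr rfl), hj, fun x hx => by rw [h x hx]; simp⟩⟩
  choose σ e he using key
  set T0 : Finset (ι → ZMod a) := Finset.univ.filter (fun x => x ∈ H) with hT0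
  have hT0H : ∀ t ∈ T0, t ∈ H := fun t ht => (Finset.mem_filter.1 ht).2
  have hcard0 : Nat.card H = T0.card := by
    rw [hT0, Nat.card_eq_fintype_card, Fintype.card_subtype]
  obtain ⟨T1, hT1, hc1, ho1⟩ := roots hba T0 J
  have hsd : (R ∪ J) \ J = R := by
    rw [Finset.union_sdiff_right, Finset.sdiff_eq_self_of_disjoint hRJ]
  obtain ⟨T2, hT2, hc2, ho2⟩ := process hb hC2 hC H R (R ∪ J) σ e he R.card J T1
    (fun t ht => hT0H t (hT1 ht)) Finset.subset_union_right
    (fun i hi hiR => (Finset.mem_union.1 hi).resolve_left hiR) ho1 (by rw [hsd])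
  refine ⟨T2, ?_, ?_⟩
  · have hc1' : (T0.card : ℝ) * (b : ℝ) ^ J.card ≤ (a : ℝ) ^ J.card * T1.card := by
      exact_mod_cast hc1
    calc (Nat.card H : ℝ) * (b : ℝ) ^ J.card = T0.card * (b : ℝ) ^ J.card := by rw [hcard0]
      _ ≤ (a : ℝ) ^ J.card * T1.card := hc1'
      _ ≤ (a : ℝ) ^ J.card * (C ^ R.card * T2.card) :=
        mul_le_mul_of_nonneg_left hc2 (by positivity)
      _ = C ^ R.card * (a : ℝ) ^ J.card * T2.card := by ring
  · intro s hs t ht hst
    obtain ⟨i, hi1, hi2⟩ := hH (s - t)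
      (H.sub_mem (hT0H s (hT1 (hT2 hs))) (hT0H t (hT1 (hT2 ht)))) (sub_ne_zero.2 hst)
    refine ⟨i, ?_, hi1, by rwa [Pi.sub_apply, neg_sub] at hi2⟩
    intro hiRJ
    obtain ⟨f, hf1, hf2⟩ := ho2 i hiRJ
    have h1 := hf2 s hs t ht
    have h2 := hf2 t ht s hs
    have h3 : (((f s - f t : ℤ)) : ZMod a) = (s - t) i := by
      push_cast
      rw [hf1 s hs, hf1 t ht]
      rfl
    rcases le_total 0 (f s - f t) with h4 | h4
    · obtain ⟨k, hk⟩ := Int.eq_ofNat_of_zero_le h4
      rw [hk] at h3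
      rw [← h3] at hi1
      push_cast at hi1
      rw [ZMod.val_natCast] at hi1
      have := Nat.mod_le k a
      omega
    · obtain ⟨k, hk⟩ := Int.eq_ofNat_of_zero_le (show 0 ≤ -(f s - f t) by linarith)
      have h5 : (((-(f s - f t) : ℤ)) : ZMod a) = -(s - t) i := by
        rw [← h3]
        push_cast
        ring
      rw [hk] at h5
      rw [← h5] at hi2
      push_cast at hi2
      rw [ZMod.val_natCast] at hi2
      have := Nat.mod_le k a
      omega

end Pool.Agent.Hhelper71.Dbl
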