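import Pool.Agent.Hhelper71.Dbl.Fermat

/-!
# The Thue-Morse constant
-/

namespace Pool.Agent.Hhelper71.Dbl

open Filter Topology

/-- The Thue-Morse sequence: the parity of the sum of the binary digits. -/
def tm (n : ℕ) : ℕ := (Nat.digits 2 n).sum % 2

/-- The Thue-Morse constant `0.41245...`. -/
noncomputable def tau : ℝ := ∑' n : ℕ, (tm n : ℝ) / 2 ^ (n + 1)

theorem digits_sum (r k : ℕ) (hr : r < 2) :
    (Nat.digits 2 (r + 2 * k)).sum = r + (Nat.digits 2 k).sum := by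
  by_cases h : r ≠ 0 ∨ k ≠ 0
  · rw [Nat.digits_add 2 (by norm_num) r k hr h, List.sum_cons]
  · push Not at h
    obtain ⟨rfl, rfl⟩ := h
    simp

theorem digits_top (j : ℕ) : ∀ n < 2 ^ j,
    (Nat.digits 2 (2 ^ j + n)).sum = (Nat.digits 2 n).sum + 1 := by
  induction j with
  | zero =>
    intro n hn
    have : n = 0 := by simpa using hn
    subst this
    simp
  | succ j ih =>
    intro n hn
    rw [pow_succ] at hn
    have h1 : n = n % 2 + 2 * (n / 2) := by omega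
    have h2 : 2 ^ (j + 1) + n = n % 2 + 2 * (2 ^ j + n / 2) := by
      rw [pow_succ]
      omega
    rw [h2, digits_sum _ _ (by omega), ih (n / 2) (by omega)]
    conv_rhs => rw [h1, digits_sum _ _ (by omega)]
    ring

theorem tm_top (j : ℕ) {n : ℕ} (hn : n < 2 ^ j) : (tm (2 ^ j + n) : ℝ) = 1 - tm n := by
  have h1 : tm (2 ^ j + n) + tm n = 1 := by
    unfold tm
    rw [digits_top j n hn]
    omega
  have h2 : ((tm (2 ^ j + n) + tm n : ℕ) : ℝ) = 1 := by rw [h1]; simp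
  push_cast at h2
  linarith

theorem tm_le (n : ℕ) : tm n ≤ 1 := by
  unfold tm
  omega

theorem sum_geom_half (m : ℕ) : ∑ n ∈ Finset.range m, (1 : ℝ) / 2 ^ (n + 1) = 1 - 1 / 2 ^ m := by
  induction m with
  | zero => simp
  | succ m ih =>
    rw [Finset.sum_range_succ, ih]
    field_simp
    ring

theorem partial_sum (j : ℕ) : ∑ n ∈ Finset.range (2 ^ j), (tm n : ℝ) / 2 ^ (n + 1) =
    ((fM j : ℝ) - 1) / 2 ^ (2 ^ j) := by
  induction j with
  | zero => simp [tm, fM]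
  | succ j ih =>
    have hQ : (0 : ℝ) < 2 ^ (2 ^ j) := by positivity
    have h1 : ∑ n ∈ Finset.range (2 ^ j), (tm (2 ^ j + n) : ℝ) / 2 ^ (2 ^ j + n + 1) =
        1 / 2 ^ (2 ^ j) * ((1 - 1 / 2 ^ (2 ^ j)) - ((fM j : ℝ) - 1) / 2 ^ (2 ^ j)) := by
      rw [← ih, ← sum_geom_half, ← Finset.sum_sub_distrib, Finset.mul_sum]
      refine Finset.sum_congr rfl fun n hn => ?_
      rw [tm_top j (Finset.mem_range.1 hn), add_assoc, pow_add]
      field_simp
    have h2 : 2 ^ (j + 1) = 2 ^ j + 2 ^ j := by rw [pow_succ]; ring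
    rw [h2, Finset.sum_range_add, ih, h1, fM, pow_add]
    push_cast
    field_simp
    ring

theorem summable_tm : Summable (fun n : ℕ => (tm n : ℝ) / 2 ^ (n + 1)) := by
  refine Summable.of_nonneg_of_le (fun n => by positivity) (fun n => ?_)
    (summable_geometric_two' (1 : ℝ))
  have h1 : (tm n : ℝ) ≤ 1 := by exact_mod_cast tm_le n
  have h2 : (0 : ℝ) < 2 ^ n := by positivity
  rw [pow_succ, div_div, mul_comm (2 : ℝ) (2 ^ n)]
  exact div_le_div_of_nonneg_right h1 (by positivity)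

/-- The approximations `1/3, 2/5, 7/17, 106/257, ...`. -/
noncomputable def tj (j : ℕ) : ℝ := (fM j : ℝ) / (2 ^ (2 ^ j) + 1)

theorem tendsto_tj : Tendsto tj atTop (𝓝 tau) := by
  have h1 : Tendsto (fun m : ℕ => ∑ n ∈ Finset.range m, (tm n : ℝ) / 2 ^ (n + 1)) atTop
      (𝓝 tau) := summable_tm.hasSum.tendsto_sum_nat
  have h2 : Tendsto (fun j : ℕ => 2 ^ j) atTop atTop :=
    tendsto_pow_atTop_atTop_of_one_lt (by norm_num : (1 : ℕ) < 2)
  have h3 := h1.comp h2
  have h4 : Tendsto (fun j : ℕ => (1 : ℝ) / 2 ^ (2 ^ j)) atTop (𝓝 0) := by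
    have h5 : Tendsto (fun m : ℕ => ((1 : ℝ) / 2) ^ m) atTop (𝓝 0) :=
      tendsto_pow_atTop_nhds_zero_of_lt_one (by norm_num) (by norm_num)
    have h6 := h5.comp h2
    refine h6.congr fun j => ?_
    simp [Function.comp, one_div, inv_pow]
  have h5 : Tendsto (fun j : ℕ => tj j -
      ∑ n ∈ Finset.range (2 ^ j), (tm n : ℝ) / 2 ^ (n + 1)) atTop (𝓝 0) := by
    refine squeeze_zero (fun j => ?_) (fun j => ?_) h4
    · rw [partial_sum, tj]
      have hQ : (0 : ℝ) < 2 ^ (2 ^ j) := by positivity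
      have hM : (2 * (fM j : ℝ) + fc j) = 2 ^ (2 ^ j) + 1 := by exact_mod_cast fM_fc j
      have hc : (1 : ℝ) ≤ fc j := by exact_mod_cast fc_pos j
      have hM1 : (1 : ℝ) ≤ fM j := by exact_mod_cast fM_pos j
      rw [sub_nonneg, div_le_div_iff₀ hQ (by linarith)]
      nlinarith
    · rw [partial_sum, tj]
      have hQ : (0 : ℝ) < 2 ^ (2 ^ j) := by positivity
      have hM1 : (1 : ℝ) ≤ fM j := by exact_mod_cast fM_pos j
      rw [sub_le_iff_le_add, ← add_div, div_le_div_iff₀ (by linarith) hQ]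
      nlinarith
  have h6 := h5.add h3
  rw [zero_add] at h6
  refine h6.congr fun j => ?_
  simp [Function.comp]

theorem tj_lt_succ (j : ℕ) : tj j < tj (j + 1) := by
  have hQ : (0 : ℝ) < 2 ^ (2 ^ j) := by positivity
  have hM : (2 * (fM j : ℝ) + fc j) = 2 ^ (2 ^ j) + 1 := by exact_mod_cast fM_fc j
  have hc : (1 : ℝ) ≤ fc j := by exact_mod_cast fc_pos j
  have hM1 : (1 : ℝ) ≤ fM j := by exact_mod_cast fM_pos j
  have hQ2 : (2 : ℝ) ^ (2 ^ (j + 1)) = 2 ^ (2 ^ j) * 2 ^ (2 ^ j) := by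
    rw [← pow_add, pow_succ, mul_two]
  have h1 : (fM (j + 1) : ℝ) = (2 ^ (2 ^ j) - 1) * fM j + 1 := by
    rw [fM]
    push_cast
    ring
  rw [tj, tj, hQ2, h1, div_lt_div_iff₀ (by positivity) (by positivity)]
  nlinarith

theorem tj_lt_tau (j : ℕ) : tj j < tau := by
  have hmono : StrictMono tj := strictMono_nat_of_lt_succ tj_lt_succ
  have h1 : tj (j + 1) ≤ tau := hmono.monotone.ge_of_tendsto tendsto_tj _
  exact (tj_lt_succ j).trans_le h1

theorem exists_lt_tj {x : ℝ} (hx : x < tau) : ∃ j, x < tj j :=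
  (tendsto_tj.eventually (lt_mem_nhds hx)).exists

theorem cond_of_tau {a b : ℕ} (h : (a : ℝ) * tau < b) (j : ℕ) :
    (a : ℤ) * fM j < b * (2 ^ (2 ^ j) + 1) := by
  have h1 := tj_lt_tau j
  have hN : (0 : ℝ) < 2 ^ (2 ^ j) + 1 := by positivity
  have h2 : (a : ℝ) * tj j ≤ a * tau := mul_le_mul_of_nonneg_left h1.le (Nat.cast_nonneg _)
  have h3 : (a : ℝ) * fM j < b * (2 ^ (2 ^ j) + 1) := by
    have h4 : (a : ℝ) * tj j < b := h2.trans_lt h
    rw [tj, ← mul_div_assoc, div_lt_iff₀ hN] at h4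
    exact h4
  exact_mod_cast h3

end Pool.Agent.Hhelper71.Dbl
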