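import Pool.Agent.Hhelper71.Dbl.BH
import Pool.Agent.Hhelper71.Dbl.Main
import Pool.Agent.Hhelper71.Dbl.Tau

/-!
# The Shannon capacity of fraction graphs
-/

namespace Pool.Agent.Hhelper71.Dbl

/-- The Shannon capacity of the fraction graph `E_{p/q}`. -/
noncomputable def Theta (p q : ℕ) : ℝ :=
  ⨆ n : ℕ, ((sSup {k : ℕ | ∃ S : Finset (Fin (n + 1) → ZMod p), S.card = k ∧
      ∀ x ∈ S, ∀ y ∈ S, x ≠ y → ∃ i, q ≤ (x i - y i).val ∧ q ≤ (y i - x i).val} : ℕ) : ℝ)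
        ^ ((1 : ℝ) / ((n : ℝ) + 1))

theorem le_theta {p q m : ℕ} [NeZero p] (S : Finset (Fin (m + 1) → ZMod p)) (hS : Sep q S) :
    (S.card : ℝ) ^ ((1 : ℝ) / ((m : ℝ) + 1)) ≤ Theta p q := by
  have hp1 : (1 : ℝ) ≤ (p : ℝ) := by exact_mod_cast NeZero.one_le (n := p)
  set T : ℕ → Set ℕ := fun n => {k : ℕ | ∃ S : Finset (Fin (n + 1) → ZMod p), S.card = k ∧
      ∀ x ∈ S, ∀ y ∈ S, x ≠ y → ∃ i, q ≤ (x i - y i).val ∧ q ≤ (y i - x i).val} with hT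
  have hcard : ∀ n, ∀ k ∈ T n, k ≤ p ^ (n + 1) := by
    rintro n k ⟨S, rfl, -⟩
    calc S.card ≤ Fintype.card (Fin (n + 1) → ZMod p) := Finset.card_le_univ _
      _ = p ^ (n + 1) := by simp [ZMod.card]
  have hne : ∀ n, (T n).Nonempty := fun n => ⟨0, ∅, by simp, by simp⟩
  have hbd : ∀ n, BddAbove (T n) := fun n => ⟨p ^ (n + 1), fun k hk => hcard n k hk⟩
  have hsup : ∀ n, sSup (T n) ≤ p ^ (n + 1) := fun n => csSup_le (hne n) (hcard n)
  have hB : BddAbove (Set.range fun n : ℕ => ((sSup (T n) : ℕ) : ℝ) ^ ((1 : ℝ) / ((n : ℝ) + 1))) := by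
    refine ⟨p, ?_⟩
    rintro _ ⟨n, rfl⟩
    have h1 : ((sSup (T n) : ℕ) : ℝ) ≤ (p : ℝ) ^ (n + 1) := by exact_mod_cast hsup n
    have hn : (0 : ℝ) < (n : ℝ) + 1 := by positivity
    calc ((sSup (T n) : ℕ) : ℝ) ^ ((1 : ℝ) / ((n : ℝ) + 1))
        ≤ ((p : ℝ) ^ (n + 1)) ^ ((1 : ℝ) / ((n : ℝ) + 1)) :=
          Real.rpow_le_rpow (Nat.cast_nonneg _) h1 (by positivity)
      _ = p := by
        rw [← Real.rpow_natCast, ← Real.rpow_mul (Nat.cast_nonneg _)]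
        push_cast
        rw [mul_one_div_cancel hn.ne', Real.rpow_one]
  have h1 : ((S.card : ℕ) : ℝ) ≤ ((sSup (T m) : ℕ) : ℝ) := by
    exact_mod_cast le_csSup (hbd m) ⟨S, rfl, hS⟩
  calc (S.card : ℝ) ^ ((1 : ℝ) / ((m : ℝ) + 1))
      ≤ ((sSup (T m) : ℕ) : ℝ) ^ ((1 : ℝ) / ((m : ℝ) + 1)) :=
        Real.rpow_le_rpow (Nat.cast_nonneg _) h1 (by positivity)
    _ ≤ Theta p q := le_ciSup hB m

theorem theta_nonneg {p q : ℕ} : 0 ≤ Theta p q :=
  Real.iSup_nonneg fun _ => Real.rpow_nonneg (Nat.cast_nonneg _) _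

theorem card_le_theta_pow {p q m : ℕ} [NeZero p] (S : Finset (Fin m → ZMod p)) (hS : Sep q S) :
    (S.card : ℝ) ≤ Theta p q ^ m := by
  rcases m with _ | m
  · rw [pow_zero]
    have h1 : S.card ≤ Fintype.card (Fin 0 → ZMod p) := Finset.card_le_univ _
    rw [Fintype.card_unique] at h1
    exact_mod_cast h1
  · have h1 := le_theta S hS
    have hm : (0 : ℝ) < (m : ℝ) + 1 := by positivity
    have h2 : ((S.card : ℝ) ^ ((1 : ℝ) / ((m : ℝ) + 1))) ^ (m + 1) = S.card := by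
      rw [← Real.rpow_natCast, ← Real.rpow_mul (Nat.cast_nonneg _)]
      push_cast
      rw [one_div_mul_cancel hm.ne', Real.rpow_one]
    rw [← h2]
    exact pow_le_pow_left₀ (Real.rpow_nonneg (Nat.cast_nonneg _) _) h1 _

/-- The theorem of Bohman and Holzman. -/
theorem two_lt_theta {p q : ℕ} (hq : 0 < q) (hpq : 2 * q < p) : 2 < Theta p q := by
  have : NeZero p := ⟨by omega⟩
  have key : ∀ n, 0 < n → (∃ S : Finset (Fin n → ZMod p), S.card = 2 ^ n + 1 ∧ Sep q S) →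
      2 < Theta p q := by
    rintro n hn ⟨S, hS1, hS2⟩
    obtain ⟨m, rfl⟩ : ∃ m, n = m + 1 := ⟨n - 1, by omega⟩
    have h1 := le_theta S hS2
    have hm0 : (0 : ℝ) < (m : ℝ) + 1 := by positivity
    refine lt_of_lt_of_le ?_ h1
    rw [hS1]
    have h2 : (2 : ℝ) = ((2 : ℝ) ^ (m + 1)) ^ ((1 : ℝ) / ((m : ℝ) + 1)) := by
      rw [← Real.rpow_natCast, ← Real.rpow_mul (by norm_num)]
      push_cast
      rw [mul_one_div_cancel hm0.ne', Real.rpow_one]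
    conv_lhs => rw [h2]
    refine Real.rpow_lt_rpow (by positivity) ?_ (by positivity)
    push_cast
    linarith
  obtain ⟨k, rfl⟩ : ∃ k, q = k + 1 := ⟨q - 1, by omega⟩
  obtain ⟨S, hS1, hS2⟩ := bh_code k
  obtain ⟨S', hS3, hS4⟩ := sep_map (p := p) (q := k + 1) (Nat.succ_pos k) hq
    (show (2 * (k + 1) + 1) * (k + 1) ≤ (k + 1) * p by
      rw [mul_comm]
      exact Nat.mul_le_mul_left _ (by omega)) hS2
  exact key _ (by positivity) ⟨S', by rw [hS3, hS1], hS4⟩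

theorem seventeen_le {p q : ℕ} (hq : 0 < q) (hpq : 7 * q ≤ 3 * p) :
    (17 : ℝ) ^ ((1 : ℝ) / 4) ≤ Theta p q := by
  have : NeZero p := ⟨by omega⟩
  obtain ⟨S, hS1, hS2⟩ := seventeen
  obtain ⟨S', hS3, hS4⟩ := sep_map (p := p) (q := q) (by norm_num) hq hpq hS2
  have h1 := le_theta (m := 3) S' hS4
  rw [hS3, hS1] at h1
  norm_num at h1 ⊢
  exact h1

theorem main_bound {p q a b n : ℕ} (hq : 0 < q) (hpq : 2 * q ≤ p) (hb : 0 < b)
    (hab : a * q = b * p) {C : ℝ} (hC2 : 2 ≤ C)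
    (hC : ∀ i, tj i * p < q ∨ ∀ m : ℕ, 2 ^ i ≤ m → (2 : ℝ) ^ m + 1 ≤ C ^ m)
    (H : AddSubgroup (Fin n → ZMod a))
    (hH : ∀ x ∈ H, x ≠ 0 → ∃ i, b ≤ (x i).val ∧ b ≤ (-x i).val) (R J : Finset (Fin n))
    (hRJ : Disjoint R J)
    (hR : ∀ i ∈ R, ∃ j ∈ R ∪ J, (∀ x ∈ H, 2 * x i = 0) ∨ (∀ x ∈ H, 2 * x i = x j) ∨
      (∀ x ∈ H, 2 * x i = -x j)) :
    (Nat.card H : ℝ) ≤ C ^ R.card * ((p : ℝ) / q) ^ J.card *
      Theta p q ^ (n - R.card - J.card) := by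
  have hp : 0 < p := by omega
  have ha : 0 < a := by
    rcases Nat.eq_zero_or_pos a with h | h
    · rw [h, zero_mul] at hab
      have := Nat.mul_pos hb hp
      omega
    · exact h
  have : NeZero a := ⟨ha.ne'⟩
  have : NeZero p := ⟨hp.ne'⟩
  have hba : b ≤ a := by
    by_contra h
    push Not at h
    have h1 : a * q < b * p := by
      calc a * q < b * q := Nat.mul_lt_mul_of_pos_right h hq
        _ ≤ b * p := Nat.mul_le_mul_left _ (by omega)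
    omega
  have hq0 : (0 : ℝ) < q := by exact_mod_cast hq
  have hb0 : (0 : ℝ) < b := by exact_mod_cast hb
  have habR : (a : ℝ) * q = b * p := by exact_mod_cast hab
  have hC' : ∀ i, (a : ℤ) * fM i < b * (2 ^ (2 ^ i) + 1) ∨
      ∀ m : ℕ, 2 ^ i ≤ m → (2 : ℝ) ^ m + 1 ≤ C ^ m := by
    intro i
    rcases hC i with h | h
    · left
      have h1 : (a : ℝ) * tj i * q < b * q := by
        calc (a : ℝ) * tj i * q = (a * q) * tj i := by ring
          _ = b * (tj i * p) := by rw [habR]; ring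
          _ < b * q := mul_lt_mul_of_pos_left h hb0
      have h2 : (a : ℝ) * tj i < b := lt_of_mul_lt_mul_right h1 hq0.le
      have hN : (0 : ℝ) < 2 ^ (2 ^ i) + 1 := by positivity
      rw [tj, ← mul_div_assoc, div_lt_iff₀ hN] at h2
      exact_mod_cast h2
    · right
      exact h
  obtain ⟨T, hT1, hT2⟩ := exists_clique hb hba hC2 hC' H hH R J hRJ hR
  have hcompl : (R ∪ J)ᶜ.card = n - R.card - J.card := by
    rw [Finset.card_compl, Finset.card_union_of_disjoint hRJ, Fintype.card_fin]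
    omega
  obtain ⟨T1, hT3, hT4⟩ := sep_restrict hb (R ∪ J) hcompl hT2
  obtain ⟨T2, hT5, hT6⟩ := sep_map (p := p) (q := q) hb hq hab.le hT4
  have h1 := card_le_theta_pow T2 hT6
  rw [hT5, hT3] at h1
  have h3 : (p : ℝ) / q = a / b := by
    rw [div_eq_div_iff hq0.ne' hb0.ne']
    linarith
  rw [h3, div_pow]
  have hbJ : (0 : ℝ) < (b : ℝ) ^ J.card := by positivity
  have hC0 : (0 : ℝ) ≤ C := by linarith
  rw [← mul_div_assoc, div_mul_eq_mul_div, le_div_iff₀ hbJ]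
  exact hT1.trans (mul_le_mul_of_nonneg_left h1 (by positivity))

/-- The condition on `C` for the step with index `j`. -/
theorem step_cond {j : ℕ} {C : ℝ} (hC2 : 2 ≤ C) (hCj : C ^ (2 ^ j) = 2 ^ (2 ^ j) + 1) {m : ℕ}
    (hm : 2 ^ j ≤ m) : (2 : ℝ) ^ m + 1 ≤ C ^ m := by
  have h1 : C = 2 * (C / 2) := by ring
  have h2 : (1 : ℝ) ≤ C / 2 := by linarith
  have h3 : (C / 2) ^ (2 ^ j) = 1 + 1 / 2 ^ (2 ^ j) := by
    rw [div_pow, hCj]
    field_simp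
  have h4 : (C / 2) ^ (2 ^ j) ≤ (C / 2) ^ m := pow_le_pow_right₀ h2 hm
  have h5 : (1 : ℝ) / 2 ^ m ≤ 1 / 2 ^ (2 ^ j) :=
    one_div_le_one_div_of_le (by positivity) (pow_le_pow_right₀ (by norm_num) hm)
  have h6 : (2 : ℝ) ^ m * (1 + 1 / 2 ^ m) ≤ 2 ^ m * (C / 2) ^ m :=
    mul_le_mul_of_nonneg_left (by linarith) (by positivity)
  rw [← mul_pow, mul_div_cancel₀ C (by norm_num : (2 : ℝ) ≠ 0)] at h6
  calc (2 : ℝ) ^ m + 1 = 2 ^ m * (1 + 1 / 2 ^ m) := by field_simp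
    _ ≤ C ^ m := h6

end Pool.Agent.Hhelper71.Dbl
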