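import Mathlib

/-!
# Periodic orbits of tent maps with an odd number of folds
-/

namespace Pool.Agent.Hhelper71.Dbl

/-- The numerators of the Thue-Morse approximations, with a general slope. -/
def gM (L : ℝ) : ℕ → ℝ
  | 0 => 1
  | j + 1 => (L ^ (2 ^ j) - 1) * gM L j + 1

theorem gM_front (L : ℝ) (j : ℕ) :
    (L + 1) * gM L (j + 1) = L ^ (2 ^ (j + 1)) + 1 + (L - 1) * gM (L ^ 2) j := by
  induction j with
  | zero =>
    simp only [gM, pow_zero, pow_one, zero_add]
    ring
  | succ j ih =>
    rw [gM]
    have h1 : gM (L ^ 2) (j + 1) = ((L ^ 2) ^ (2 ^ j) - 1) * gM (L ^ 2) j + 1 := rfl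
    have h2 : (L ^ 2) ^ (2 ^ j) = L ^ (2 ^ (j + 1)) := by rw [← pow_mul, pow_succ, mul_comm 2]
    have h3 : L ^ (2 ^ (j + 1 + 1)) = L ^ (2 ^ (j + 1)) * L ^ (2 ^ (j + 1)) := by
      rw [← pow_add, pow_succ 2 (j + 1), mul_two]
    rw [h1, h2, h3]
    linear_combination (L ^ (2 ^ (j + 1)) - 1) * ih

/-- The approximations with a general slope. -/
noncomputable def gT (L : ℝ) (j : ℕ) : ℝ := gM L j / (L ^ (2 ^ j) + 1)

theorem gT_zero (L : ℝ) : gT L 0 = 1 / (L + 1) := by
  simp [gT, gM]

theorem gT_succ {L : ℝ} (hL : 2 ≤ L) (j : ℕ) :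
    gT L (j + 1) = 1 / (L + 1) + (L - 1) / (L + 1) * gT (L ^ 2) j := by
  have h2 : (L ^ 2) ^ (2 ^ j) = L ^ (2 ^ (j + 1)) := by rw [← pow_mul, pow_succ, mul_comm 2]
  have h1 : (0 : ℝ) < L + 1 := by linarith
  have h3 : (0 : ℝ) < L ^ (2 ^ (j + 1)) + 1 := by positivity
  rw [gT, gT, h2]
  field_simp
  linear_combination gM_front L j

theorem gT_le {L : ℝ} (hL : 2 ≤ L) (j : ℕ) : gT L j ≤ 1 / L := by
  induction j generalizing L with
  | zero =>
    rw [gT_zero]
    exact one_div_le_one_div_of_le (by linarith) (by linarith)
  | succ j ih =>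
    rw [gT_succ hL]
    have h1 := ih (L := L ^ 2) (by nlinarith)
    have h2 : (0 : ℝ) < L + 1 := by linarith
    have h3 : (L - 1) / (L + 1) * gT (L ^ 2) j ≤ (L - 1) / (L + 1) * (1 / L ^ 2) :=
      mul_le_mul_of_nonneg_left h1 (div_nonneg (by linarith) h2.le)
    have h4 : 1 / (L + 1) + (L - 1) / (L + 1) * (1 / L ^ 2) ≤ 1 / L := by
      rw [div_mul_div_comm, div_add_div _ _ (by positivity) (by positivity),
        div_le_div_iff₀ (by positivity) (by positivity)]
      nlinarith [mul_pos (show (0 : ℝ) < L by linarith) h2]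
    linarith

/-- The bound that forces the orbit to alternate around the fixed point. -/
theorem gT_succ_le {L : ℝ} (hL : 2 ≤ L) (j : ℕ) :
    (L + 1) * L ^ 2 * gT L (j + 1) ≤ L ^ 2 + L - 1 := by
  rw [gT_succ hL]
  have h1 := gT_le (L := L ^ 2) (by nlinarith) j
  have h2 : (0 : ℝ) < L + 1 := by linarith
  have h0 : (0 : ℝ) < L ^ 2 := by positivity
  rw [le_div_iff₀ h0] at h1
  have h3 : (L + 1) * L ^ 2 * (1 / (L + 1) + (L - 1) / (L + 1) * gT (L ^ 2) j) =
      L ^ 2 + (L - 1) * (gT (L ^ 2) j * L ^ 2) := by
    field_simp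
  rw [h3]
  nlinarith

theorem sum_pairs (f : ℕ → ℕ) (n : ℕ) : ∑ t ∈ Finset.range (2 * n), f t =
    ∑ k ∈ Finset.range n, (f (2 * k) + f (2 * k + 1)) := by
  induction n with
  | zero => simp
  | succ n ih =>
    rw [Nat.mul_succ, Finset.sum_range_succ, Finset.sum_range_succ, Finset.sum_range_succ, ih]
    ring

theorem tent (j : ℕ) : ∀ L : ℝ, 2 ≤ L → ∀ (v : ℕ → ℝ) (f : ℕ → ℕ), (∀ t, 0 ≤ v t) →
    (∀ t, v (t + 2 ^ j) = v t) → (∀ t, f (t + 2 ^ j) = f t) →
    (∀ t, (f t = 0 ∧ v (t + 1) = L * v t) ∨ (f t = 1 ∧ v (t + 1) = 1 - L * v t)) →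
    Odd (∑ t ∈ Finset.range (2 ^ j), f t) → ∃ t, gT L j ≤ v t := by
  induction j with
  | zero =>
    intro L hL v f _ hv1 _ hstep hodd
    refine ⟨0, ?_⟩
    have h1 : f 0 = 1 := by
      rw [pow_zero, Finset.sum_range_one] at hodd
      rcases hstep 0 with h | h
      · rw [h.1] at hodd
        exact absurd hodd (by decide)
      · exact h.1
    have h2 : v 1 = 1 - L * v 0 := by
      rcases hstep 0 with h | h
      · omega
      · exact h.2
    have h3 : v 1 = v 0 := by simpa using hv1 0
    rw [gT_zero, div_le_iff₀ (by linarith)]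
    rw [h3] at h2
    linarith
  | succ j ih =>
    intro L hL v f hv0 hv1 hf1 hstep hodd
    by_contra hcon
    push Not at hcon
    set β := gT L (j + 1) with hβ
    have hβ1 : (L + 1) * L ^ 2 * β ≤ L ^ 2 + L - 1 := gT_succ_le hL j
    have hL0 : (0 : ℝ) < L := by linarith
    have hL1 : (0 : ℝ) < L + 1 := by linarith
    -- `L * β < 1`
    have hLβ : L * β < 1 := by
      by_contra h
      push Not at h
      have : (L + 1) * L * 1 ≤ (L + 1) * L * (L * β) :=
        mul_le_mul_of_nonneg_left h (by positivity)
      nlinarith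
    set P := 2 ^ (j + 1) with hP
    have hPpos : 0 < P := by positivity
    have hvP : ∀ k t, v (t + k * P) = v t := by
      intro k
      induction k with
      | zero => intro t; simp
      | succ k ihk =>
        intro t
        rw [Nat.succ_mul, ← add_assoc, hv1, ihk]
    -- there is a fold
    obtain ⟨t1, ht1⟩ : ∃ t, f t = 1 := by
      by_contra h
      push Not at h
      have h0 : ∀ t, f t = 0 := fun t => ((hstep t).resolve_right fun h1 => h t h1.1).1
      rw [Finset.sum_eq_zero fun t _ => h0 t] at hodd
      exact absurd hodd (by decide)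
    have hlow1 : ∀ k, 1 - L * β < v (t1 + 1 + k) := by
      intro k
      induction k with
      | zero =>
        rcases hstep t1 with h | h
        · omega
        · rw [add_zero, h.2]
          have := hcon t1
          nlinarith
      | succ k ihk =>
        rw [← add_assoc]
        rcases hstep (t1 + 1 + k) with h | h
        · rw [h.2]
          nlinarith
        · rw [h.2]
          have := hcon (t1 + 1 + k)
          nlinarith
    have hlow : ∀ t, 1 - L * β < v t := by
      intro t
      rw [← hvP (t1 + 1) t]
      have h1 : t1 + 1 ≤ (t1 + 1) * P := Nat.le_mul_of_pos_right _ hPpos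
      have h2 : t + (t1 + 1) * P = t1 + 1 + (t + (t1 + 1) * P - (t1 + 1)) := by omega
      rw [h2]
      exact hlow1 _
    set x : ℝ := 1 / (L + 1) with hx
    have hx1 : (L + 1) * x = 1 := by
      rw [hx]
      field_simp
    have hB1 : ∀ t, v t < x → x < v (t + 1) := by
      intro t ht
      rcases hstep t with h | h
      · rw [h.2]
        have h1 := hlow t
        have h2 : L * (1 - L * β) < L * v t := mul_lt_mul_of_pos_left h1 hL0
        have h3 : x ≤ L * (1 - L * β) := by
          have h4 : (L + 1) * x ≤ (L + 1) * (L * (1 - L * β)) := by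
            rw [hx1]
            nlinarith
          exact le_of_mul_le_mul_left h4 hL1
        linarith
      · rw [h.2]
        nlinarith
    have hB0 : ∀ t, x ≤ v t → f t = 1 ∧ v (t + 1) = 1 - L * v t := by
      intro t ht
      rcases hstep t with h | h
      · exfalso
        have h1 := hcon (t + 1)
        rw [h.2] at h1
        have h2 : L * x ≤ L * v t := mul_le_mul_of_nonneg_left ht hL0.le
        nlinarith
      · exact h
    -- the main case
    have main : ∀ (v : ℕ → ℝ) (f : ℕ → ℕ), (∀ t, v (t + P) = v t) → (∀ t, f (t + P) = f t) →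
        (∀ t, (f t = 0 ∧ v (t + 1) = L * v t) ∨ (f t = 1 ∧ v (t + 1) = 1 - L * v t)) →
        Odd (∑ t ∈ Finset.range P, f t) → (∀ t, v t < β) → (∀ t, v t < x → x < v (t + 1)) →
        (∀ t, x ≤ v t → f t = 1 ∧ v (t + 1) = 1 - L * v t) → x < v 0 → False := by
      intro v f hv1 hf1 hstep hodd hcon hB1 hB0 h0
      have hpos : ∀ k, x < v (2 * k) := by
        intro k
        induction k with
        | zero => simpa using h0
        | succ k ihk =>
          have h1 := (hB0 _ ihk.le).2
          have h2 : v (2 * k + 1) < x := by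
            rw [h1]
            nlinarith
          have h3 := hB1 _ h2
          have h4 : 2 * (k + 1) = 2 * k + 1 + 1 := by ring
          rw [h4]
          exact h3
      have hf0 : ∀ k, f (2 * k) = 1 := fun k => (hB0 _ (hpos k).le).1
      have hfle : ∀ t, f t ≤ 1 := fun t => by
        rcases hstep t with h | h <;> omega
      set C : ℝ := (L - 1) / (L + 1) with hC
      have hC1 : (L + 1) * C = L - 1 := by
        rw [hC]
        field_simp
      have hCpos : 0 < C := div_pos (by linarith) hL1
      have hxC : C + L ^ 2 * x + x = L := by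
        have : (L + 1) * (C + L ^ 2 * x + x) = (L + 1) * L := by
          linear_combination hC1 + (L ^ 2 + 1) * hx1
        exact mul_left_cancel₀ hL1.ne' this
      have hxL : 1 - L - x = -(L ^ 2 * x) := by
        have : (L + 1) * (1 - L - x) = (L + 1) * (-(L ^ 2 * x)) := by
          linear_combination (L ^ 2 - 1) * hx1
        exact mul_left_cancel₀ hL1.ne' this
      obtain ⟨k, hk⟩ := ih (L ^ 2) (by nlinarith) (fun k => (v (2 * k) - x) / C)
        (fun k => 1 - f (2 * k + 1)) (fun k => div_nonneg (by linarith [hpos k]) hCpos.le)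
        (fun k => by
          have : 2 * (k + 2 ^ j) = 2 * k + P := by rw [hP, pow_succ]; ring
          rw [this, hv1])
        (fun k => by
          have : 2 * (k + 2 ^ j) + 1 = 2 * k + 1 + P := by rw [hP, pow_succ]; ring
          rw [this, hf1])
        (fun k => by
          have h1 := (hB0 _ (hpos k).le).2
          have h4 : 2 * (k + 1) = 2 * k + 1 + 1 := by ring
          rcases hstep (2 * k + 1) with h | h
          · right
            refine ⟨by omega, ?_⟩
            rw [h4, h.2, h1, div_eq_iff hCpos.ne']
            field_simp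
            linear_combination -hxC
          · left
            refine ⟨by omega, ?_⟩
            rw [h4, h.2, h1, div_eq_iff hCpos.ne']
            field_simp
            linear_combination hxL)
        (by
          have h1 : ∑ t ∈ Finset.range P, f t + ∑ k ∈ Finset.range (2 ^ j), (1 - f (2 * k + 1)) =
              2 * 2 ^ j := by
            have hP' : P = 2 * 2 ^ j := by rw [hP, pow_succ]; ring
            rw [hP', sum_pairs, ← Finset.sum_add_distrib]
            have : ∀ k ∈ Finset.range (2 ^ j), f (2 * k) + f (2 * k + 1) + (1 - f (2 * k + 1)) =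
                2 := by
              intro k _
              have := hfle (2 * k + 1)
              rw [hf0]
              omega
            rw [Finset.sum_congr rfl this, Finset.sum_const, Finset.card_range, smul_eq_mul,
              mul_comm]
          obtain ⟨r, hr⟩ := hodd
          rw [hr] at h1
          rw [Nat.odd_iff]
          omega)
      have h5 : x + C * gT (L ^ 2) j ≤ v (2 * k) := by
        rw [le_div_iff₀ hCpos] at hk
        linarith
      have h6 : β = x + C * gT (L ^ 2) j := by rw [hβ, gT_succ hL]
      have h7 := hcon (2 * k)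
      linarith
    rcases lt_trichotomy (v 0) x with h | h | h
    · refine main (fun t => v (t + 1)) (fun t => f (t + 1)) (fun t => ?_) (fun t => ?_)
        (fun t => hstep (t + 1)) ?_ (fun t => hcon _) (fun t => hB1 _) (fun t => hB0 _) ?_
      · rw [add_right_comm, hv1]
      · rw [add_right_comm, hf1]
      · have h1 := Finset.sum_range_succ' f P
        have h2 := Finset.sum_range_succ f P
        have h3 : f P = f 0 := by simpa using hf1 0
        have h4 : ∑ t ∈ Finset.range P, f (t + 1) = ∑ t ∈ Finset.range P, f t := by omega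
        rw [h4]
        exact hodd
      · simpa using hB1 0 h
    · have hall : ∀ t, v t = x := by
        intro t
        induction t with
        | zero => exact h
        | succ t iht =>
          rw [(hB0 t iht.ge).2, iht]
          linarith
      have hone : ∀ t, f t = 1 := fun t => (hB0 t (hall t).ge).1
      rw [Finset.sum_congr rfl fun t _ => hone t, Finset.sum_const, Finset.card_range, smul_eq_mul,
        mul_one, hP, pow_succ] at hodd
      obtain ⟨r, hr⟩ := hodd
      omega
    · exact main v f hv1 hf1 hstep hodd hcon hB1 hB0 h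

end Pool.Agent.Hhelper71.Dbl
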