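import Pool.Agent.Hhelper71.Dbl.Tau
import Pool.Agent.Hhelper71.Dbl.Tent

/-!
# Doubling-closed codes of order `2 ^ n + 1`
-/

namespace Pool.Agent.Hhelper71.Dbl

theorem gM_two (j : ℕ) : gM 2 j = fM j := by
  induction j with
  | zero => simp [gM, fM]
  | succ j ih =>
    rw [gM, fM, ih]
    push_cast
    ring

theorem gT_two (j : ℕ) : gT 2 j = tj j := by
  rw [gT, tj, gM_two]

/-- Doubling modulo `N` with representatives in `(-N/2, N/2)`. -/
def stp (N w : ℤ) : ℤ := if 4 * |w| < N then 2 * w else if 0 < w then 2 * w - N else 2 * w + N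

theorem stp_spec {N w : ℤ} (hN : N % 2 = 1) (hw0 : w ≠ 0) (hw : 2 * |w| < N) :
    N ∣ stp N w - 2 * w ∧ stp N w ≠ 0 ∧ 2 * |stp N w| < N ∧
      ((4 * |w| < N ∧ |stp N w| = 2 * |w| ∧ 0 < stp N w * w) ∨
        (¬ 4 * |w| < N ∧ |stp N w| = N - 2 * |w| ∧ stp N w * w < 0)) := by
  unfold stp
  rcases lt_or_gt_of_ne hw0 with h | h
  · rw [abs_of_neg h] at hw ⊢
    by_cases h4 : 4 * -w < N
    · rw [if_pos h4]
      have h5 : |2 * w| = 2 * -w := by rw [abs_of_neg (by linarith)]; ring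
      refine ⟨by simp, by omega, by omega, Or.inl ⟨h4, h5, by nlinarith⟩⟩
    · rw [if_neg h4, if_neg (by linarith)]
      have h6 : 0 < 2 * w + N := by linarith
      have h5 : |2 * w + N| = N - 2 * -w := by rw [abs_of_pos h6]; ring
      refine ⟨⟨1, by ring⟩, h6.ne', by omega, Or.inr ⟨h4, h5, by nlinarith⟩⟩
  · rw [abs_of_pos h] at hw ⊢
    by_cases h4 : 4 * w < N
    · rw [if_pos h4]
      have h5 : |2 * w| = 2 * w := by rw [abs_of_pos (by linarith)]
      refine ⟨by simp, by omega, by omega, Or.inl ⟨h4, h5, by nlinarith⟩⟩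
    · rw [if_neg h4, if_pos h]
      have h6 : 2 * w - N < 0 := by linarith
      have h5 : |2 * w - N| = N - 2 * w := by rw [abs_of_neg h6]; ring
      refine ⟨⟨-1, by ring⟩, h6.ne, by omega, Or.inr ⟨h4, h5, by nlinarith⟩⟩

theorem exists_far (j : ℕ) {y : ℤ} (hy : ¬ ((2 : ℤ) ^ (2 ^ j) + 1) ∣ y) :
    ∃ t < 2 ^ j, ∃ w : ℤ, ((2 : ℤ) ^ (2 ^ j) + 1) ∣ 2 ^ t * y - w ∧ fM j ≤ |w| ∧
      2 * |w| < (2 : ℤ) ^ (2 ^ j) + 1 := by
  set N : ℤ := (2 : ℤ) ^ (2 ^ j) + 1 with hN
  have hN2 : N % 2 = 1 := by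
    have h1 : 2 ^ j = 2 ^ j - 1 + 1 := by have := Nat.one_le_two_pow (n := j); omega
    rw [hN, h1, pow_succ]
    omega
  have hNpos : 0 < N := by positivity
  -- the starting representative
  obtain ⟨w0, hw00, hw0N, hw0d⟩ : ∃ w0 : ℤ, w0 ≠ 0 ∧ 2 * |w0| < N ∧ N ∣ y - w0 := by
    have hr0 : 0 ≤ y % N := Int.emod_nonneg _ hNpos.ne'
    have hr1 : y % N < N := Int.emod_lt_of_pos _ hNpos
    have hr2 : y % N ≠ 0 := fun h => hy (Int.dvd_of_emod_eq_zero h)
    have hr3 : N ∣ y - y % N := Int.dvd_self_sub_emod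
    by_cases h : 2 * (y % N) < N
    · exact ⟨y % N, hr2, by rwa [abs_of_nonneg hr0], hr3⟩
    · refine ⟨y % N - N, by omega, ?_, ?_⟩
      · rw [abs_of_neg (by linarith)]
        omega
      · have : y - (y % N - N) = (y - y % N) + N := by ring
        rw [this]
        exact dvd_add hr3 dvd_rfl
  set w : ℕ → ℤ := fun t => (stp N)^[t] w0 with hw
  have hws : ∀ t, w (t + 1) = stp N (w t) := fun t => Function.iterate_succ_apply' _ _ _
  have hinv : ∀ t, w t ≠ 0 ∧ 2 * |w t| < N := by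
    intro t
    induction t with
    | zero => exact ⟨hw00, hw0N⟩
    | succ t ih =>
      obtain ⟨-, h2, h3, -⟩ := stp_spec hN2 ih.1 ih.2
      rw [hws]
      exact ⟨h2, h3⟩
  have hmul : ∀ t k, N ∣ 2 ^ k * w t - w (t + k) := by
    intro t k
    induction k with
    | zero => simp
    | succ k ih =>
      obtain ⟨h1, -⟩ := stp_spec hN2 (hinv (t + k)).1 (hinv (t + k)).2
      have h2 : 2 ^ (k + 1) * w t - w (t + (k + 1)) =
          2 * (2 ^ k * w t - w (t + k)) - (stp N (w (t + k)) - 2 * w (t + k)) := by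
        rw [← add_assoc, hws, pow_succ]
        ring
      rw [h2]
      exact dvd_sub (dvd_mul_of_dvd_right ih _) h1
  have hper : ∀ t, w (t + 2 ^ j) = -w t := by
    intro t
    have h1 := hmul t (2 ^ j)
    have h2 : w (t + 2 ^ j) + w t = N * w t - (2 ^ (2 ^ j) * w t - w (t + 2 ^ j)) := by
      rw [hN]
      ring
    have h3 : N ∣ w (t + 2 ^ j) + w t := by
      rw [h2]
      exact dvd_sub (dvd_mul_right _ _) h1
    have h4 : |w (t + 2 ^ j) + w t| < N := by
      have := abs_add_le (w (t + 2 ^ j)) (w t)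
      have h5 := (hinv t).2
      have h6 := (hinv (t + 2 ^ j)).2
      linarith
    have h5 := Int.eq_zero_of_abs_lt_dvd h3 h4
    linarith
  have hNr : (0 : ℝ) < (N : ℝ) := by exact_mod_cast hNpos
  have hNcast : ((N : ℤ) : ℝ) = 2 ^ (2 ^ j) + 1 := by
    rw [hN]
    push_cast
    ring
  obtain ⟨t, ht⟩ := tent j 2 le_rfl (fun t => (|w t| : ℤ) / (N : ℝ))
    (fun t => if 4 * |w t| < N then 0 else 1)
    (fun t => div_nonneg (by exact_mod_cast abs_nonneg _) hNr.le)
    (fun t => by rw [hper, abs_neg])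
    (fun t => by rw [hper, abs_neg])
    (fun t => by
      obtain ⟨-, -, -, h | h⟩ := stp_spec hN2 (hinv t).1 (hinv t).2
      · left
        refine ⟨if_pos h.1, ?_⟩
        rw [hws, h.2.1]
        push_cast
        ring
      · right
        refine ⟨if_neg h.1, ?_⟩
        rw [hws, h.2.1]
        push_cast
        field_simp)
    (by
      have hsg : ∀ t, 0 < (-1 : ℤ) ^ (∑ s ∈ Finset.range t, if 4 * |w s| < N then 0 else 1) *
          (w t * w 0) := by
        intro t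
        induction t with
        | zero =>
          rw [Finset.range_zero, Finset.sum_empty, pow_zero, one_mul]
          exact mul_self_pos.2 (hinv 0).1
        | succ t ih =>
          rw [Finset.sum_range_succ, hws]
          have hsq : 0 < w t * w t := mul_self_pos.2 (hinv t).1
          obtain ⟨-, -, -, h | h⟩ := stp_spec hN2 (hinv t).1 (hinv t).2
          · rw [if_pos h.1, add_zero]
            have h1 := mul_pos ih h.2.2
            have h2 : (-1 : ℤ) ^ (∑ s ∈ Finset.range t, if 4 * |w s| < N then 0 else 1) *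
                (w t * w 0) * (stp N (w t) * w t) = (w t * w t) *
                ((-1 : ℤ) ^ (∑ s ∈ Finset.range t, if 4 * |w s| < N then 0 else 1) *
                (stp N (w t) * w 0)) := by ring
            rw [h2] at h1
            exact (mul_pos_iff_of_pos_left hsq).1 h1
          · rw [if_neg h.1, pow_succ]
            have h1 := mul_pos ih (neg_pos.2 h.2.2)
            have h2 : (-1 : ℤ) ^ (∑ s ∈ Finset.range t, if 4 * |w s| < N then 0 else 1) *
                (w t * w 0) * -(stp N (w t) * w t) = (w t * w t) *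
                ((-1 : ℤ) ^ (∑ s ∈ Finset.range t, if 4 * |w s| < N then 0 else 1) * -1 *
                (stp N (w t) * w 0)) := by ring
            rw [h2] at h1
            exact (mul_pos_iff_of_pos_left hsq).1 h1
      have h1 := hsg (2 ^ j)
      have h2 : w (2 ^ j) = -w 0 := by simpa using hper 0
      rw [h2] at h1
      rcases Nat.even_or_odd (∑ s ∈ Finset.range (2 ^ j), if 4 * |w s| < N then 0 else 1)
        with he | ho
      · exfalso
        rw [he.neg_one_pow, one_mul] at h1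
        nlinarith [mul_self_nonneg (w 0)]
      · exact ho)
  rw [gT_two, tj, ← hNcast, div_le_div_iff_of_pos_right hNr] at ht
  have ht' : fM j ≤ |w t| := by exact_mod_cast ht
  -- reduce `t` modulo the period
  have habs : Function.Periodic (fun t => |w t|) (2 ^ j) := fun t => by
    dsimp only
    rw [hper, abs_neg]
  have h1 : |w (t % 2 ^ j)| = |w t| := habs.map_mod_nat t
  refine ⟨t % 2 ^ j, Nat.mod_lt _ (by positivity), w (t % 2 ^ j), ?_, by rw [h1]; exact ht',
    (hinv _).2⟩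
  have h2 := hmul 0 (t % 2 ^ j)
  rw [zero_add] at h2
  have h3 : 2 ^ (t % 2 ^ j) * y - w (t % 2 ^ j) =
      2 ^ (t % 2 ^ j) * (y - w0) + (2 ^ (t % 2 ^ j) * w 0 - w (t % 2 ^ j)) := by
    have : w 0 = w0 := rfl
    rw [this]
    ring
  rw [h3]
  exact dvd_add (dvd_mul_of_dvd_right hw0d _) h2

theorem val_far {a b : ℕ} [NeZero a] {w : ℤ} (h1 : (b : ℤ) ≤ |w|) (h2 : 2 * |w| ≤ a)
    (hb : 0 < b) : b ≤ ((w : ℤ) : ZMod a).val ∧ b ≤ (-((w : ℤ) : ZMod a)).val := by
  have key : ∀ k : ℕ, b ≤ k → 2 * k ≤ a →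
      b ≤ ((k : ℕ) : ZMod a).val ∧ b ≤ (-((k : ℕ) : ZMod a)).val := by
    intro k hk hka
    have ha : 0 < a := NeZero.pos a
    have hval : ((k : ℕ) : ZMod a).val = k := by
      rw [ZMod.val_natCast, Nat.mod_eq_of_lt (by omega)]
    have hne : ((k : ℕ) : ZMod a) ≠ 0 := by
      intro h
      rw [h, ZMod.val_zero] at hval
      omega
    refine ⟨by rw [hval]; exact hk, ?_⟩
    rw [ZMod.neg_val, if_neg hne, hval]
    omega
  rcases le_total 0 w with h | h
  · obtain ⟨k, rfl⟩ := Int.eq_ofNat_of_zero_le h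
    rw [abs_of_nonneg h] at h1 h2
    have := key k (by omega) (by omega)
    simpa using this
  · obtain ⟨k, hk⟩ := Int.eq_ofNat_of_zero_le (neg_nonneg.2 h)
    rw [abs_of_nonpos h, hk] at h1 h2
    have h3 := key k (by omega) (by omega)
    have h4 : w = -(k : ℤ) := by linarith
    rw [h4]
    push_cast
    rw [neg_neg]
    exact ⟨h3.2, h3.1⟩

theorem fermat_code {p q j : ℕ} (hq : 0 < q) (hpq : 2 * q ≤ p)
    (h : (q : ℤ) * (2 ^ (2 ^ j) + 1) ≤ p * fM j) :
    ∃ H : AddSubgroup (Fin (2 ^ j) → ZMod (p * (2 ^ (2 ^ j) + 1))),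
      Nat.card H = 2 ^ (2 ^ j) + 1 ∧
      (∀ x ∈ H, x ≠ 0 → ∃ i, q * (2 ^ (2 ^ j) + 1) ≤ (x i).val ∧
        q * (2 ^ (2 ^ j) + 1) ≤ (-x i).val) ∧
      ∀ i, ∃ i', (∀ x ∈ H, 2 * x i = x i') ∨ (∀ x ∈ H, 2 * x i = -x i') := by
  set N : ℕ := 2 ^ (2 ^ j) + 1 with hN
  have hNpos : 0 < N := by positivity
  have hp : 0 < p := by omega
  have : NeZero (p * N) := ⟨(Nat.mul_pos hp hNpos).ne'⟩
  set g : Fin (2 ^ j) → ZMod (p * N) := fun i => ((p * 2 ^ (i : ℕ) : ℕ) : ZMod (p * N)) with hg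
  have hgi : ∀ (k : ℤ) (i : Fin (2 ^ j)), (k • g) i = ((p * (2 ^ (i : ℕ) * k) : ℤ) : ZMod (p * N)) := by
    intro k i
    rw [Pi.smul_apply, hg, zsmul_eq_mul]
    push_cast
    ring
  have hcast : ∀ u : ℤ, (N : ℤ) ∣ u → ((p * u : ℤ) : ZMod (p * N)) = 0 := by
    intro u hu
    rw [ZMod.intCast_zmod_eq_zero_iff_dvd]
    push_cast
    exact mul_dvd_mul_left _ hu
  have hcast' : ∀ u : ℤ, ((p * u : ℤ) : ZMod (p * N)) = 0 → (N : ℤ) ∣ u := by
    intro u hu
    rw [ZMod.intCast_zmod_eq_zero_iff_dvd] at hu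
    push_cast at hu
    exact (mul_dvd_mul_iff_left (by exact_mod_cast hp.ne')).1 hu
  have hNz : (N : ℤ) = 2 ^ (2 ^ j) + 1 := by
    rw [hN]
    push_cast
    ring
  have h2j : 0 < 2 ^ j := by positivity
  refine ⟨AddSubgroup.zmultiples g, ?_, ?_, ?_⟩
  · rw [Nat.card_zmultiples]
    refine Nat.dvd_antisymm ?_ ?_
    · rw [addOrderOf_dvd_iff_nsmul_eq_zero]
      funext i
      have h1 := hgi (N : ℤ) i
      rw [natCast_zsmul] at h1
      rw [h1]
      exact hcast _ (dvd_mul_left _ _)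
    · have h1 := congrFun (addOrderOf_nsmul_eq_zero g) ⟨0, h2j⟩
      have h2 := hgi (addOrderOf g : ℤ) ⟨0, h2j⟩
      rw [natCast_zsmul, h1] at h2
      have h3 := hcast' _ h2.symm
      rw [pow_zero, one_mul] at h3
      exact_mod_cast h3
  · intro x hx hx0
    obtain ⟨k, rfl⟩ := AddSubgroup.mem_zmultiples_iff.1 hx
    have hk : ¬ ((2 : ℤ) ^ (2 ^ j) + 1) ∣ k := by
      intro hk
      apply hx0
      funext i
      rw [hgi]
      refine hcast _ (dvd_mul_of_dvd_right ?_ _)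
      rwa [hNz]
    obtain ⟨t, ht, w, hw1, hw2, hw3⟩ := exists_far j hk
    refine ⟨⟨t, ht⟩, ?_⟩
    have h1 : (k • g) ⟨t, ht⟩ = ((p * w : ℤ) : ZMod (p * N)) := by
      rw [hgi, ← sub_eq_zero]
      have h2 : ((p * (2 ^ t * k) : ℤ) : ZMod (p * N)) - ((p * w : ℤ) : ZMod (p * N)) =
          ((p * (2 ^ t * k - w) : ℤ) : ZMod (p * N)) := by
        push_cast
        ring
      rw [h2]
      refine hcast _ ?_
      rwa [hNz]
    have hp0 : (0 : ℤ) < p := by exact_mod_cast hp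
    rw [h1]
    refine val_far ?_ ?_ (Nat.mul_pos hq hNpos)
    · rw [abs_mul, abs_of_pos hp0]
      push_cast
      rw [hNz]
      nlinarith
    · rw [abs_mul, abs_of_pos hp0]
      push_cast
      rw [hNz]
      nlinarith
  · intro i
    by_cases hi : (i : ℕ) + 1 < 2 ^ j
    · refine ⟨⟨i + 1, hi⟩, Or.inl ?_⟩
      intro x hx
      obtain ⟨k, rfl⟩ := AddSubgroup.mem_zmultiples_iff.1 hx
      rw [hgi, hgi]
      push_cast
      rw [pow_succ]
      ring
    · refine ⟨⟨0, h2j⟩, Or.inr ?_⟩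
      intro x hx
      obtain ⟨k, rfl⟩ := AddSubgroup.mem_zmultiples_iff.1 hx
      rw [hgi, hgi, ← sub_eq_zero]
      have h2 : (2 : ZMod (p * N)) * ((p * (2 ^ (i : ℕ) * k) : ℤ) : ZMod (p * N)) -
          -((p * (2 ^ ((⟨0, h2j⟩ : Fin (2 ^ j)) : ℕ) * k) : ℤ) : ZMod (p * N)) =
          ((p * ((2 * 2 ^ (i : ℕ) + 1) * k) : ℤ) : ZMod (p * N)) := by
        push_cast
        ring
      rw [h2]
      refine hcast _ (dvd_mul_of_dvd_left ?_ _)
      have h3 : (2 : ℤ) * 2 ^ (i : ℕ) = 2 ^ (2 ^ j) := by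
        rw [← pow_succ']
        congr 1
        have := i.2
        omega
      rw [h3, hNz]

end Pool.Agent.Hhelper71.Dbl
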